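import Pool.Agent.TH893.PF.Tensor

/-!
# Sets that are dense in a box-anchored set

If `S ⊆ D ⊆ ℤ ^ n`, `D` contains with `x` the whole box between `0` and `x`,
`|S + S| ≤ K |S|` and `|D| ≤ L |S|`, then some box `∏ [y_i, 2 y_i]`, `y ∈ D`, contains at least
`|S| / (2^27 K^8 L^5)` elements of `S`, and `y` has at most `log (4 √(K L)) / log (6/5)` nonzero
coordinates.
-/

open Finset
open scoped Pointwise

namespace TH893.PF

/-- The number of nonzero coordinates. -/
def sz {n : ℕ} (x : Fin n → ℤ) : ℕ := (univ.filter (fun i => x i ≠ 0)).card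

lemma nu_eq {n : ℕ} (x : Fin n → ℤ) : nu x = (6 / 5 : ℝ) ^ sz x := by
  unfold nu sz
  rw [prod_ite, prod_const_one, one_mul, prod_const]

/-- The volume `∏ (2 |x_i| + 1)`. -/
noncomputable def vv {n : ℕ} (x : Fin n → ℤ) : ℝ := ∏ i, (2 * |(x i : ℝ)| + 1)

lemma vv_pos {n : ℕ} (x : Fin n → ℤ) : 0 < vv x := prod_pos (fun i _ => by positivity)

lemma uw_pow {n : ℕ} (x : Fin n → ℤ) : (∏ i, uw (x i)) ^ 5 = (vv x)⁻¹ := by
  unfold vv
  rw [← prod_pow, ← prod_inv_distrib]
  apply prod_congr rfl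
  intro i _
  unfold uw
  rw [inv_pow, r5_pow (by positivity)]

/-- Half, rounded towards `0`. -/
def hf (a : ℤ) : ℤ := if 0 ≤ a then a / 2 else -((-a) / 2)

/-- The box of all `y` with `x / 2` between... -/
def Ybox {n : ℕ} (x : Fin n → ℤ) : Finset (Fin n → ℤ) :=
  Fintype.piFinset (fun i => uIcc (x i - hf (x i)) (x i))

/-- The box `∏ [y_i, 2 y_i]`. -/
def Pbox {n : ℕ} (y : Fin n → ℤ) : Finset (Fin n → ℤ) :=
  Fintype.piFinset (fun i => uIcc (y i) (2 * y i))

lemma mem_uIcc' {a b c : ℤ} : c ∈ uIcc a b ↔ (a ≤ c ∧ c ≤ b) ∨ (b ≤ c ∧ c ≤ a) := by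
  rw [Finset.mem_uIcc]
  omega

lemma Ybox_card {n : ℕ} (x : Fin n → ℤ) : vv x ≤ (4 : ℝ) ^ sz x * ((Ybox x).card : ℝ) := by
  have e1 : (4 : ℝ) ^ sz x = ∏ i, (if x i = 0 then 1 else (4 : ℝ)) := by
    unfold sz
    rw [prod_ite, prod_const_one, one_mul, prod_const]
  unfold Ybox vv
  rw [Fintype.card_piFinset, e1]
  push_cast
  rw [← prod_mul_distrib]
  apply prod_le_prod (fun i _ => by positivity)
  intro i _
  rw [Int.card_uIcc]
  have h1 : (2 * |x i| + 1 : ℤ) ≤ (if x i = 0 then 1 else 4)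
      * (((x i - (x i - hf (x i))).natAbs + 1 : ℕ) : ℤ) := by
    rw [Int.abs_eq_natAbs]
    unfold hf
    split_ifs <;> omega
  have key : ∀ m : ℕ, (2 * |x i| + 1 : ℤ) ≤ (if x i = 0 then 1 else 4) * (m : ℤ) →
      2 * |(x i : ℝ)| + 1 ≤ (if x i = 0 then 1 else (4 : ℝ)) * (m : ℝ) := by
    intro m h
    have h' : ((2 * |x i| + 1 : ℤ) : ℝ) ≤ (((if x i = 0 then 1 else 4) * (m : ℤ) : ℤ) : ℝ) := by
      exact_mod_cast h
    push_cast at h'
    exact h'
  have := key _ h1
  push_cast at this ⊢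
  exact this

lemma Pbox_card {n : ℕ} (y : Fin n → ℤ) : (Pbox y).card = ∏ i, ((y i).natAbs + 1) := by
  unfold Pbox
  rw [Fintype.card_piFinset]
  apply prod_congr rfl
  intro i _
  rw [Int.card_uIcc]
  congr 2
  ring

theorem core (n : ℕ) (S D : Finset (Fin n → ℤ)) (hS : S.Nonempty) (hSD : S ⊆ D)
    (hD : ∀ x ∈ D, ∀ y : Fin n → ℤ,
      (∀ i, (0 ≤ y i ∧ y i ≤ x i) ∨ (x i ≤ y i ∧ y i ≤ 0)) → y ∈ D)
    (K L : ℝ) (hK : ((S + S).card : ℝ) ≤ K * S.card) (hL : (D.card : ℝ) ≤ L * S.card) :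
    ∃ y ∈ D, (6 / 5 : ℝ) ^ sz y ≤ 4 * Real.sqrt (K * L) ∧
      (S.card : ℝ) ≤ 2 ^ 27 * K ^ 8 * L ^ 5 * ((S ∩ Pbox y).card : ℝ) ∧
      (Pbox y).card ≤ D.card := by
  classical
  set M : ℝ := (S.card : ℝ) with hM
  have hMp : 0 < M := by rw [hM]; exact_mod_cast hS.card_pos
  have hDp : (0 : ℝ) < D.card := by exact_mod_cast (hS.mono hSD).card_pos
  have hK1 : 1 ≤ K := by
    have h1 : (S.card : ℝ) ≤ ((S + S).card : ℝ) := by
      exact_mod_cast card_le_card_add_left hS
    have : M ≤ K * M := h1.trans hK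
    nlinarith
  have hL1 : 1 ≤ L := by
    have h1 : (S.card : ℝ) ≤ (D.card : ℝ) := by exact_mod_cast card_le_card hSD
    have : M ≤ L * M := h1.trans hL
    nlinarith
  have hKL : 0 < K * L := by positivity
  set q := Real.sqrt (K * L) with hq
  have hqp : 0 < q := Real.sqrt_pos.mpr hKL
  have hq2 : q ^ 2 = K * L := Real.sq_sqrt hKL.le
  -- inequality P
  set W := ∑ x ∈ S, ∏ i, uw (x i) with hW
  have hWp : 0 ≤ W := sum_nonneg (fun x _ => (prod_pos (fun i _ => uw_pos _)).le)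
  have hW5 : W ^ 5 ≤ ((S + S).card : ℝ) ^ 4 := by
    have h1 := mainP n S S hS hS
    rw [← pow_le_pow_iff_left₀ (by positivity) (by positivity) (by norm_num : (2 : ℕ) ≠ 0)]
    calc (W ^ 5) ^ 2 = W ^ 5 * W ^ 5 := by ring
      _ ≤ _ := h1
      _ = _ := by ring
  -- inequality V
  have hDz : ∀ x ∈ D, ∀ i, Function.update x i 0 ∈ D := by
    intro x hx i
    apply hD x hx
    intro j
    by_cases hj : j = i
    · rw [hj, Function.update_self]
      omega
    · rw [Function.update_of_ne hj]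
      omega
  set V := ∑ x ∈ S, nu x with hV
  have hVp : 0 ≤ V := sum_nonneg (fun x _ => (nu_pos x).le)
  have hV2 : V ^ 2 ≤ ((S + S).card : ℝ) * D.card := by
    have h1 := mainV n S S D D hS hS hSD hSD hDz hDz
    rw [← pow_le_pow_iff_left₀ (by positivity) (by positivity) (by norm_num : (2 : ℕ) ≠ 0)]
    calc (V ^ 2) ^ 2 = V ^ 2 * V ^ 2 := by ring
      _ ≤ _ := h1
      _ = _ := by ring
  -- the exceptional sets
  set V0 : ℝ := M / (4 ^ 5 * K ^ 4) with hV0
  have hV0p : 0 < V0 := by positivity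
  set bad1 := S.filter (fun x => vv x < V0) with hb1
  set bad2 := S.filter (fun x => 4 * q < nu x) with hb2
  have hbad1 : (bad1.card : ℝ) ≤ M / 4 := by
    set c := r5 (V0⁻¹) with hc
    have hcp : 0 < c := r5_pos (inv_pos.mpr hV0p)
    have hc5 : c ^ 5 = V0⁻¹ := r5_pow (inv_pos.mpr hV0p).le
    have h1 : (bad1.card : ℝ) * c ≤ W := by
      calc (bad1.card : ℝ) * c = ∑ x ∈ bad1, c := by rw [sum_const, nsmul_eq_mul]
        _ ≤ ∑ x ∈ bad1, ∏ i, uw (x i) := by
            apply sum_le_sum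
            intro x hx
            have hx2 := (mem_filter.mp hx).2
            have hpp : 0 < ∏ i, uw (x i) := prod_pos (fun i _ => uw_pos _)
            rw [← pow_le_pow_iff_left₀ hcp.le hpp.le (by norm_num : (5 : ℕ) ≠ 0), hc5, uw_pow]
            exact inv_anti₀ (vv_pos x) hx2.le
        _ ≤ W := sum_le_sum_of_subset_of_nonneg (filter_subset _ _)
            (fun x _ _ => (prod_pos (fun i _ => uw_pos _)).le)
    have h2 : ((bad1.card : ℝ) * c) ^ 5 ≤ (K * M) ^ 4 := by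
      calc ((bad1.card : ℝ) * c) ^ 5 ≤ W ^ 5 := pow_le_pow_left₀ (by positivity) h1 5
        _ ≤ ((S + S).card : ℝ) ^ 4 := hW5
        _ ≤ (K * M) ^ 4 := pow_le_pow_left₀ (Nat.cast_nonneg _) hK 4
    rw [mul_pow, hc5] at h2
    have h3 : (bad1.card : ℝ) ^ 5 ≤ (M / 4) ^ 5 := by
      have h4 : (bad1.card : ℝ) ^ 5 ≤ (K * M) ^ 4 * V0 := by
        rwa [← div_eq_mul_inv, div_le_iff₀ hV0p] at h2
      refine h4.trans (le_of_eq ?_)
      rw [hV0]
      field_simp
    rwa [pow_le_pow_iff_left₀ (Nat.cast_nonneg _) (by positivity)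
      (by norm_num : (5 : ℕ) ≠ 0)] at h3
  have hbad2 : (bad2.card : ℝ) ≤ M / 4 := by
    have h1 : (bad2.card : ℝ) * (4 * q) ≤ V := by
      calc (bad2.card : ℝ) * (4 * q) = ∑ x ∈ bad2, (4 * q) := by rw [sum_const, nsmul_eq_mul]
        _ ≤ ∑ x ∈ bad2, nu x := by
            apply sum_le_sum
            intro x hx
            exact (mem_filter.mp hx).2.le
        _ ≤ V := sum_le_sum_of_subset_of_nonneg (filter_subset _ _)
            (fun x _ _ => (nu_pos x).le)
    have h2 : ((bad2.card : ℝ) * (4 * q)) ^ 2 ≤ (K * M) * (L * M) := by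
      calc ((bad2.card : ℝ) * (4 * q)) ^ 2 ≤ V ^ 2 := pow_le_pow_left₀ (by positivity) h1 2
        _ ≤ ((S + S).card : ℝ) * D.card := hV2
        _ ≤ (K * M) * (L * M) := mul_le_mul hK hL (Nat.cast_nonneg _) (by positivity)
    have h3 : (bad2.card : ℝ) ^ 2 ≤ (M / 4) ^ 2 := by
      have h4 : (16 * (K * L)) * (bad2.card : ℝ) ^ 2 ≤ (16 * (K * L)) * (M / 4) ^ 2 := by
        calc (16 * (K * L)) * (bad2.card : ℝ) ^ 2 = ((bad2.card : ℝ) * (4 * q)) ^ 2 := by
              have : ((bad2.card : ℝ) * (4 * q)) ^ 2 = 16 * q ^ 2 * (bad2.card : ℝ) ^ 2 := by ring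
              rw [this, hq2]
          _ ≤ (K * M) * (L * M) := h2
          _ = _ := by ring
      exact le_of_mul_le_mul_left h4 (by positivity)
    rwa [pow_le_pow_iff_left₀ (Nat.cast_nonneg _) (by positivity)
      (by norm_num : (2 : ℕ) ≠ 0)] at h3
  set good := S.filter (fun x => V0 ≤ vv x ∧ nu x ≤ 4 * q) with hgood
  have hgoodc : M / 2 ≤ (good.card : ℝ) := by
    have hcov : S ⊆ good ∪ (bad1 ∪ bad2) := by
      intro x hx
      by_cases h1 : vv x < V0
      · exact mem_union_right _ (mem_union_left _ (mem_filter.mpr ⟨hx, h1⟩))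
      · by_cases h2 : 4 * q < nu x
        · exact mem_union_right _ (mem_union_right _ (mem_filter.mpr ⟨hx, h2⟩))
        · exact mem_union_left _ (mem_filter.mpr ⟨hx, not_lt.mp h1, not_lt.mp h2⟩)
    have h1 : (S.card : ℝ) ≤ good.card + (bad1.card + bad2.card) := by
      have := (card_le_card hcov).trans ((card_union_le _ _).trans
        (Nat.add_le_add_left (card_union_le _ _) _))
      exact_mod_cast this
    rw [← hM] at h1
    linarith
  -- double counting
  set δ : ℝ := V0 / (4 ^ 8 * (K * L) ^ 4) with hδ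
  have hδp : 0 < δ := by positivity
  have hcount : ∀ x ∈ good, δ ≤ ((D.filter (fun y => x ∈ Pbox y)).card : ℝ) := by
    intro x hx
    obtain ⟨hxS, hx1, hx2⟩ := mem_filter.mp hx
    have hsub : Ybox x ⊆ D.filter (fun y => x ∈ Pbox y) := by
      intro y hy
      have hy' : ∀ i, y i ∈ uIcc (x i - hf (x i)) (x i) := Fintype.mem_piFinset.mp hy
      rw [mem_filter]
      constructor
      · apply hD x (hSD hxS)
        intro i
        have := mem_uIcc'.mp (hy' i)
        unfold hf at this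
        split_ifs at this <;> omega
      · apply Fintype.mem_piFinset.mpr
        intro i
        rw [mem_uIcc']
        have := mem_uIcc'.mp (hy' i)
        unfold hf at this
        split_ifs at this <;> omega
    have h4 : (4 : ℝ) ^ sz x ≤ 4 ^ 8 * (K * L) ^ 4 := by
      calc (4 : ℝ) ^ sz x ≤ ((6 / 5 : ℝ) ^ 8) ^ sz x :=
            pow_le_pow_left₀ (by norm_num) (by norm_num) _
        _ = (nu x) ^ 8 := by rw [nu_eq, ← pow_mul, ← pow_mul, mul_comm]
        _ ≤ (4 * q) ^ 8 := pow_le_pow_left₀ (nu_pos x).le hx2 8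
        _ = 4 ^ 8 * (q ^ 2) ^ 4 := by ring
        _ = _ := by rw [hq2]
    have h5 := Ybox_card x
    have h6 : ((Ybox x).card : ℝ) ≤ ((D.filter (fun y => x ∈ Pbox y)).card : ℝ) := by
      exact_mod_cast card_le_card hsub
    refine le_trans ?_ h6
    rw [hδ, div_le_iff₀ (by positivity)]
    calc V0 ≤ vv x := hx1
      _ ≤ (4 : ℝ) ^ sz x * ((Ybox x).card : ℝ) := h5
      _ ≤ (4 ^ 8 * (K * L) ^ 4) * ((Ybox x).card : ℝ) :=
          mul_le_mul_of_nonneg_right h4 (Nat.cast_nonneg _)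
      _ = _ := by ring
  have hdc : ∑ y ∈ D, ((good ∩ Pbox y).card : ℝ)
      = ∑ x ∈ good, ((D.filter (fun y => x ∈ Pbox y)).card : ℝ) := by
    have e1 : ∀ y, ((good ∩ Pbox y).card : ℝ) = ∑ x ∈ good, if x ∈ Pbox y then (1 : ℝ) else 0 := by
      intro y
      rw [← filter_mem_eq_inter, card_filter]
      push_cast
      rfl
    have e2 : ∀ x, ((D.filter (fun y => x ∈ Pbox y)).card : ℝ)
        = ∑ y ∈ D, if x ∈ Pbox y then (1 : ℝ) else 0 := by
      intro x
      rw [card_filter]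
      push_cast
      rfl
    simp_rw [e1, e2]
    exact sum_comm
  have hlow : ∑ y ∈ D, (M / 2 * δ / D.card) ≤ ∑ y ∈ D, ((good ∩ Pbox y).card : ℝ) := by
    rw [hdc, sum_const, nsmul_eq_mul, mul_div_cancel₀ _ hDp.ne']
    calc M / 2 * δ ≤ good.card * δ := mul_le_mul_of_nonneg_right hgoodc hδp.le
      _ = ∑ x ∈ good, δ := by rw [sum_const, nsmul_eq_mul]
      _ ≤ _ := sum_le_sum hcount
  obtain ⟨y, hyD, hy⟩ := exists_le_of_sum_le (hS.mono hSD) hlow
  have hypos : 0 < ((good ∩ Pbox y).card : ℝ) := lt_of_lt_of_le (by positivity) hy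
  have hne : (good ∩ Pbox y).Nonempty := by
    rw [← card_pos]
    exact_mod_cast hypos
  refine ⟨y, hyD, ?_, ?_, ?_⟩
  · obtain ⟨x, hx⟩ := hne
    obtain ⟨hxg, hxP⟩ := mem_inter.mp hx
    obtain ⟨hxS, hx1, hx2⟩ := mem_filter.mp hxg
    have hxP' : ∀ i, x i ∈ uIcc (y i) (2 * y i) := Fintype.mem_piFinset.mp hxP
    have : sz y = sz x := by
      unfold sz
      congr 1
      ext i
      rw [mem_filter, mem_filter]
      have := mem_uIcc'.mp (hxP' i)
      constructor
      · rintro ⟨_, h⟩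
        exact ⟨mem_univ _, by omega⟩
      · rintro ⟨_, h⟩
        exact ⟨mem_univ _, by omega⟩
    rw [this, ← nu_eq]
    exact hx2
  · have h1 : ((good ∩ Pbox y).card : ℝ) ≤ ((S ∩ Pbox y).card : ℝ) := by
      exact_mod_cast card_le_card (inter_subset_inter_right (filter_subset _ _))
    have h2 : M / 2 * δ / (L * M) ≤ M / 2 * δ / D.card := by
      apply div_le_div_of_nonneg_left (by positivity) hDp hL
    have h3 : M / 2 * δ / (L * M) = M / (2 ^ 27 * K ^ 8 * L ^ 5) := by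
      rw [hδ, hV0]
      field_simp
      norm_num
    have h4 : M / (2 ^ 27 * K ^ 8 * L ^ 5) ≤ ((S ∩ Pbox y).card : ℝ) := by
      rw [← h3]
      exact h2.trans (hy.trans h1)
    rw [div_le_iff₀ (by positivity)] at h4
    linarith
  · have hb : Fintype.piFinset (fun i => uIcc 0 (y i)) ⊆ D := by
      intro z hz
      have hz' : ∀ i, z i ∈ uIcc 0 (y i) := Fintype.mem_piFinset.mp hz
      apply hD y hyD
      intro i
      have := mem_uIcc'.mp (hz' i)
      omega
    refine le_trans (le_of_eq ?_) (card_le_card hb)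
    rw [Pbox_card, Fintype.card_piFinset]
    apply prod_congr rfl
    intro i _
    rw [Int.card_uIcc]
    simp

end TH893.PF
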