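import Pool.Agent.TH893.PF.Core

/-!
# Polynomial Freiman-Ruzsa for sets commensurable with a box-anchored set

A finite set `D ⊆ ℤ ^ n` is box-anchored if with `x` it contains every `y` such that each `y i`
lies between `0` and `x i` (for instance a down-set of `ℕ ^ n`, or the lattice points of an
unconditional body, convex or not).  Let `A` be a finite set in an abelian group `Γ` with
`|A + A| ≤ K |A|` that is covered by at most `L` translates of `ψ D`, where `D ⊆ ℤ ^ n` is
box-anchored, `|D| ≤ L |A|` and the homomorphism `ψ : ℤ ^ n → Γ` is injective on `D + D`.  For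
instance `Γ = ℤ ^ n`, `ψ = id` and `A` is any subset of `D` with `|A| ≥ |D| / L`.
Then there is a progression `P` in `Γ` of rank `r`, `(6/5) ^ r ≤ 4 √(K L ^ 3)`, and volume
`∏ N i ≤ L |A|`, with `|A ∩ P| ≥ |A| / (2 ^ 27 K ^ 8 L ^ 19)`, and `A` is covered by
`2 ^ 35 K ^ 11 L ^ 25` translates of `P`.  If `ψ` is injective then `P` is proper.  There is no
bound on `n`, and `A` itself need not be box-anchored.
-/

namespace Pool.Agent.TH893.PF.DBA

open Finset _root_.TH893.PF
open scoped Pointwise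

/-- The sign vector along coordinate `i`. -/
def sg {n : ℕ} (y : Fin n → ℤ) (i : Fin n) : Fin n → ℤ := Pi.single i (Int.sign (y i))

lemma single_eq {n : ℕ} (y z : Fin n → ℤ) (i : Fin n) (hz : z i = (z i).natAbs * Int.sign (y i)) :
    (Pi.single i (z i) : Fin n → ℤ) = (z i).natAbs • sg y i := by
  unfold sg
  rw [← Pi.single_smul, nsmul_eq_mul]
  exact congrArg _ hz

/-- Writing a vector along the nonzero coordinates of `y`. -/
lemma decomp {n : ℕ} {Γ : Type*} [AddCommGroup Γ] (φ : (Fin n → ℤ) →+ Γ) (y z : Fin n → ℤ)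
    {r : ℕ} (e : Fin r ≃ {i // y i ≠ 0})
    (hz : ∀ i, z i = (z i).natAbs * Int.sign (y i)) :
    φ z = ∑ j, (z (e j).1).natAbs • φ (sg y (e j).1) := by
  have h1 : φ z = ∑ i, φ (Pi.single i (z i)) := by
    rw [← map_sum]
    congr 1
    exact (Finset.univ_sum_single z).symm
  have h2 : ∑ i, φ (Pi.single i (z i)) = ∑ i, (z i).natAbs • φ (sg y i) := by
    apply sum_congr rfl
    intro i _
    rw [single_eq y z i (hz i), map_nsmul]
  have h3 : ∑ i, (z i).natAbs • φ (sg y i)
      = ∑ i ∈ univ.filter (fun i => y i ≠ 0), (z i).natAbs • φ (sg y i) := by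
    symm
    apply sum_subset (filter_subset _ _)
    intro i _ hi
    have hy : y i = 0 := by
      by_contra hne
      exact hi (mem_filter.mpr ⟨mem_univ _, hne⟩)
    have : z i = 0 := by
      rw [hz i, hy]
      simp
    rw [this]
    simp
  have h4 : ∑ i ∈ univ.filter (fun i => y i ≠ 0), (z i).natAbs • φ (sg y i)
      = ∑ i : {i // y i ≠ 0}, (z i.1).natAbs • φ (sg y i.1) := by
    rw [← sum_subtype_eq_sum_filter]
    apply sum_bij' (fun i _ => i) (fun i _ => i) <;> simp
  rw [h1, h2, h3, h4]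
  exact (Equiv.sum_comp e (fun i : {i // y i ≠ 0} => (z i.1).natAbs • φ (sg y i.1))).symm

/-- **Polynomial Freiman-Ruzsa for sets commensurable with a box-anchored set.** -/
theorem result {Γ : Type*} [AddCommGroup Γ] [DecidableEq Γ] (K L : ℝ) (A : Finset Γ)
    (hA : A.Nonempty) (hK : ((A + A).card : ℝ) ≤ K * (A.card : ℝ))
    (n : ℕ) (D : Finset (Fin n → ℤ))
    (hD : ∀ x ∈ D, ∀ y : Fin n → ℤ,
      (∀ i, (0 ≤ y i ∧ y i ≤ x i) ∨ (x i ≤ y i ∧ y i ≤ 0)) → y ∈ D)
    (hL : (D.card : ℝ) ≤ L * (A.card : ℝ))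
    (ψ : (Fin n → ℤ) →+ Γ) (hψ : Set.InjOn ψ ((D + D : Finset (Fin n → ℤ)) : Set _))
    (X : Finset Γ) (hX : (X.card : ℝ) ≤ L)
    (hcov : ∀ a ∈ A, ∃ x ∈ X, ∃ s ∈ D, a = x + ψ s) :
    ∃ (r : ℕ) (a : Γ) (v : Fin r → Γ) (N : Fin r → ℕ) (P : Set Γ) (T : Finset Γ),
      P = {x : Γ | ∃ k : Fin r → ℕ, (∀ i, k i < N i) ∧ x = a + ∑ i, k i • v i} ∧
      (6 / 5 : ℝ) ^ r ≤ 4 * Real.sqrt (K * L ^ 3) ∧
      (∀ i, 2 ≤ N i) ∧
      ((∏ i, N i : ℕ) : ℝ) ≤ L * (A.card : ℝ) ∧
      (A.card : ℝ) ≤ 2 ^ 27 * K ^ 8 * L ^ 19 * (((A : Set Γ) ∩ P).ncard : ℝ) ∧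
      (T.card : ℝ) ≤ 2 ^ 35 * K ^ 11 * L ^ 25 ∧
      (∀ x ∈ A, ∃ t ∈ T, ∃ k : Fin r → ℕ, (∀ i, k i < N i) ∧ x = t + ∑ i, k i • v i) ∧
      (Function.Injective ψ → ∀ k k' : Fin r → ℕ, (∀ i, k i < N i) → (∀ i, k' i < N i) →
        ∑ i, k i • v i = ∑ i, k' i • v i → k = k') := by
  classical
  have hAp : (0 : ℝ) < A.card := by exact_mod_cast hA.card_pos
  obtain ⟨a₁, ha₁⟩ := hA
  obtain ⟨x₁, hx₁, s₁, hs₁, _⟩ := hcov a₁ ha₁
  have hA : A.Nonempty := ⟨a₁, ha₁⟩
  have hXn : X.Nonempty := ⟨x₁, hx₁⟩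
  have hXp : (0 : ℝ) < X.card := by exact_mod_cast hXn.card_pos
  have hL1 : 1 ≤ L := by
    have : (1 : ℝ) ≤ X.card := by exact_mod_cast hXn.card_pos
    linarith
  have hK1 : 1 ≤ K := by
    have h1 : (A.card : ℝ) ≤ ((A + A).card : ℝ) := by
      exact_mod_cast card_le_card_add_left hA
    nlinarith
  -- `ψ` is injective on `D`
  have hinjD : ∀ x ∈ D, ∀ x' ∈ D, ψ x = ψ x' → x = x' := by
    intro x hx x' hx' h1
    have h2 : ψ (s₁ + x) = ψ (s₁ + x') := by rw [map_add, map_add, h1]
    have := hψ (mem_coe.mpr (add_mem_add hs₁ hx)) (mem_coe.mpr (add_mem_add hs₁ hx')) h2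
    exact add_left_cancel this
  -- the largest piece
  obtain ⟨b, hbX, hb⟩ : ∃ b ∈ X, (A.card : ℝ) / X.card
      ≤ ((D.filter (fun s => b + ψ s ∈ A)).card : ℝ) := by
    apply exists_le_of_sum_le hXn
    rw [sum_const, nsmul_eq_mul, mul_div_cancel₀ _ hXp.ne']
    have hsub : A ⊆ X.biUnion (fun b => (D.filter (fun s => b + ψ s ∈ A)).image
        (fun s => b + ψ s)) := by
      intro a ha
      obtain ⟨x, hx, s, hs, hxs⟩ := hcov a ha
      rw [mem_biUnion]
      refine ⟨x, hx, mem_image.mpr ⟨s, mem_filter.mpr ⟨hs, ?_⟩, hxs.symm⟩⟩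
      rw [← hxs]
      exact ha
    have h1 : A.card ≤ ∑ b ∈ X, (D.filter (fun s => b + ψ s ∈ A)).card := by
      refine (card_le_card hsub).trans (card_biUnion_le.trans ?_)
      exact sum_le_sum (fun b _ => card_image_le)
    exact_mod_cast h1
  set S := D.filter (fun s => b + ψ s ∈ A) with hSdef
  have hSD : S ⊆ D := filter_subset _ _
  have hSA : ∀ s ∈ S, b + ψ s ∈ A := fun s hs => (mem_filter.mp hs).2
  have hAS : (A.card : ℝ) ≤ L * S.card := by
    rw [div_le_iff₀ hXp] at hb
    calc (A.card : ℝ) ≤ S.card * X.card := hb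
      _ ≤ S.card * L := mul_le_mul_of_nonneg_left hX (Nat.cast_nonneg _)
      _ = _ := by ring
  have hSp : (0 : ℝ) < S.card := by
    by_contra hcon
    have : (S.card : ℝ) = 0 := le_antisymm (not_lt.mp hcon) (Nat.cast_nonneg _)
    rw [this] at hAS
    linarith
  have hS : S.Nonempty := by
    rw [← card_pos]
    exact_mod_cast hSp
  have hKS : ((S + S).card : ℝ) ≤ (K * L) * S.card := by
    have h1 : (S + S).card ≤ (A + A).card := by
      apply card_le_card_of_injOn (fun z => b + b + ψ z)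
      · intro z hz
        obtain ⟨x, hx, x', hx', rfl⟩ := mem_add.mp (mem_coe.mp hz)
        have e : b + b + ψ (x + x') = (b + ψ x) + (b + ψ x') := by rw [map_add]; abel
        simp only
        rw [e]
        exact mem_coe.mpr (add_mem_add (hSA x hx) (hSA x' hx'))
      · intro z hz z' hz' hzz
        have h2 : S + S ⊆ D + D := add_subset_add hSD hSD
        exact hψ (mem_coe.mpr (h2 (mem_coe.mp hz))) (mem_coe.mpr (h2 (mem_coe.mp hz')))
          (add_left_cancel hzz)
    calc ((S + S).card : ℝ) ≤ ((A + A).card : ℝ) := by exact_mod_cast h1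
      _ ≤ K * A.card := hK
      _ ≤ K * (L * S.card) := mul_le_mul_of_nonneg_left hAS (by linarith)
      _ = _ := by ring
  have hLS : (D.card : ℝ) ≤ L ^ 2 * S.card := by
    calc (D.card : ℝ) ≤ L * A.card := hL
      _ ≤ L * (L * S.card) := mul_le_mul_of_nonneg_left hAS (by linarith)
      _ = _ := by ring
  obtain ⟨y, hyD, hy1, hy2, hy3⟩ := core n S D hS hSD hD (K * L) (L ^ 2) hKS hLS
  have eKL : K * L * L ^ 2 = K * L ^ 3 := by ring
  rw [eKL] at hy1
  have eKL2 : (2 : ℝ) ^ 27 * (K * L) ^ 8 * (L ^ 2) ^ 5 = 2 ^ 27 * K ^ 8 * L ^ 18 := by ring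
  rw [eKL2] at hy2
  set r := Fintype.card {i // y i ≠ 0} with hr
  have hrs : r = sz y := by
    rw [hr, Fintype.card_subtype]
    rfl
  set e : Fin r ≃ {i // y i ≠ 0} := (Fintype.equivFin {i // y i ≠ 0}).symm with he
  set v : Fin r → Γ := fun j => ψ (sg y (e j).1) with hv
  set N : Fin r → ℕ := fun j => (y (e j).1).natAbs + 1 with hN
  -- elements of `Pbox y`
  have hPx : ∀ x ∈ Pbox y, ∃ k : Fin r → ℕ, (∀ i, k i < N i) ∧ ψ x = ψ y + ∑ i, k i • v i := by
    intro x hx
    have hx' : ∀ i, x i ∈ uIcc (y i) (2 * y i) := Fintype.mem_piFinset.mp hx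
    have hz : ∀ i, (x - y) i = ((x - y) i).natAbs * Int.sign (y i) := by
      intro i
      have := Finset.mem_uIcc'.mp (hx' i)
      rw [Pi.sub_apply]
      rcases lt_trichotomy (y i) 0 with h | h | h
      · rw [Int.sign_eq_neg_one_of_neg h]; omega
      · rw [h]; simp; omega
      · rw [Int.sign_eq_one_of_pos h]; omega
    refine ⟨fun j => ((x - y) (e j).1).natAbs, ?_, ?_⟩
    · intro j
      have := Finset.mem_uIcc'.mp (hx' (e j).1)
      rw [hN]
      simp only [Pi.sub_apply]
      omega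
    · rw [← decomp ψ y (x - y) e hz, ← map_add]
      congr 1
      abel
  -- Ruzsa covering
  set A' := (S ∩ Pbox y).image (fun s => b + ψ s) with hA'
  have hA'c : A'.card = (S ∩ Pbox y).card := by
    apply card_image_of_injOn
    intro x hx x' hx' hxx
    exact hinjD x (hSD (mem_inter.mp (mem_coe.mp hx)).1) x' (hSD (mem_inter.mp (mem_coe.mp hx')).1)
      (add_left_cancel hxx)
  have hA'A : A' ⊆ A := by
    intro z hz
    obtain ⟨s, hs, rfl⟩ := mem_image.mp hz
    exact hSA s (mem_inter.mp hs).1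
  have hδ : (0 : ℝ) < 2 ^ 27 * K ^ 8 * L ^ 19 := by positivity
  have hAA' : (A.card : ℝ) ≤ 2 ^ 27 * K ^ 8 * L ^ 19 * A'.card := by
    rw [hA'c]
    calc (A.card : ℝ) ≤ L * S.card := hAS
      _ ≤ L * (2 ^ 27 * K ^ 8 * L ^ 18 * ((S ∩ Pbox y).card : ℝ)) :=
          mul_le_mul_of_nonneg_left hy2 (by linarith)
      _ = _ := by ring
  have hA'p : (0 : ℝ) < A'.card := by
    by_contra hcon
    have : (A'.card : ℝ) = 0 := le_antisymm (not_lt.mp hcon) (Nat.cast_nonneg _)
    rw [this] at hAA'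
    linarith
  have hA'n : A'.Nonempty := by
    rw [← card_pos]
    exact_mod_cast hA'p
  have hcov' : ((A + A').card : ℝ) ≤ (2 ^ 27 * K ^ 9 * L ^ 19) * A'.card := by
    calc ((A + A').card : ℝ) ≤ ((A + A).card : ℝ) := by
          exact_mod_cast card_le_card (add_subset_add_left hA'A)
      _ ≤ K * A.card := hK
      _ ≤ K * (2 ^ 27 * K ^ 8 * L ^ 19 * A'.card) := mul_le_mul_of_nonneg_left hAA' (by linarith)
      _ = _ := by ring
  obtain ⟨F, hFS, hFc, hF⟩ := ruzsa_covering_add hA'n hcov'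
  -- the translates
  set tr : Γ × Finset {i // y i ≠ 0} → Γ := fun p =>
    p.1 + ψ (fun i => if h : y i ≠ 0 then
      (if (⟨i, h⟩ : {i // y i ≠ 0}) ∈ p.2 then -(((y i).natAbs + 1 : ℕ) : ℤ) * Int.sign (y i)
        else 0) else 0) with htr
  set T : Finset Γ := (F ×ˢ (univ : Finset (Finset {i // y i ≠ 0}))).image tr with hT
  have hTc : (T.card : ℝ) ≤ F.card * 2 ^ r := by
    have : T.card ≤ F.card * 2 ^ r := by
      refine card_image_le.trans ?_
      rw [card_product, card_univ, Fintype.card_finset]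
    exact_mod_cast this
  refine ⟨r, b + ψ y, v, N, _, T, rfl, ?_, ?_, ?_, ?_, ?_, ?_, ?_⟩
  · rw [hrs]
    exact hy1
  · intro j
    have := (e j).2
    rw [hN]
    simp only
    omega
  · have h1 : ∏ j, N j = (Pbox y).card := by
      rw [Pbox_card]
      have h2 : ∏ i, ((y i).natAbs + 1) = ∏ i ∈ univ.filter (fun i => y i ≠ 0),
          ((y i).natAbs + 1) := by
        symm
        apply prod_subset (filter_subset _ _)
        intro i _ hi
        have hyi : y i = 0 := by
          by_contra hne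
          exact hi (mem_filter.mpr ⟨mem_univ _, hne⟩)
        rw [hyi]
        simp
      have h3 : ∏ i ∈ univ.filter (fun i => y i ≠ 0), ((y i).natAbs + 1)
          = ∏ i : {i // y i ≠ 0}, ((y i.1).natAbs + 1) := by
        rw [← prod_subtype_eq_prod_filter]
        apply prod_bij' (fun i _ => i) (fun i _ => i) <;> simp
      rw [h2, h3]
      exact Equiv.prod_comp e (fun i : {i // y i ≠ 0} => (y i.1).natAbs + 1)
    rw [h1]
    refine le_trans ?_ hL
    exact_mod_cast hy3
  · refine hAA'.trans ?_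
    apply mul_le_mul_of_nonneg_left _ hδ.le
    have hsub : (A' : Set Γ)
        ⊆ (A : Set Γ) ∩ {x : Γ | ∃ k : Fin r → ℕ, (∀ i, k i < N i)
            ∧ x = b + ψ y + ∑ i, k i • v i} := by
      intro z hz
      refine ⟨mem_coe.mpr (hA'A (mem_coe.mp hz)), ?_⟩
      obtain ⟨s, hs, rfl⟩ := mem_image.mp (mem_coe.mp hz)
      obtain ⟨k, hk1, hk2⟩ := hPx s (mem_inter.mp hs).2
      exact ⟨k, hk1, by rw [hk2]; abel⟩
    have hfin : ((A : Set Γ) ∩ {x : Γ | ∃ k : Fin r → ℕ, (∀ i, k i < N i)
            ∧ x = b + ψ y + ∑ i, k i • v i}).Finite :=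
      (A.finite_toSet).subset Set.inter_subset_left
    have h1 := Set.ncard_le_ncard hsub hfin
    rw [Set.ncard_coe_finset] at h1
    exact_mod_cast h1
  · have h2r : (2 : ℝ) ^ r ≤ 2 ^ 8 * K ^ 2 * L ^ 6 := by
      calc (2 : ℝ) ^ r ≤ ((6 / 5 : ℝ) ^ 4) ^ r :=
            pow_le_pow_left₀ (by norm_num) (by norm_num) _
        _ = ((6 / 5 : ℝ) ^ r) ^ 4 := by rw [← pow_mul, ← pow_mul, mul_comm]
        _ ≤ (4 * Real.sqrt (K * L ^ 3)) ^ 4 := by
            apply pow_le_pow_left₀ (by positivity)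
            rw [hrs]
            exact hy1
        _ = 2 ^ 8 * (Real.sqrt (K * L ^ 3) ^ 2) ^ 2 := by ring
        _ = _ := by
            rw [Real.sq_sqrt (by positivity)]
            ring
    calc (T.card : ℝ) ≤ F.card * 2 ^ r := hTc
      _ ≤ (2 ^ 27 * K ^ 9 * L ^ 19) * (2 ^ 8 * K ^ 2 * L ^ 6) :=
          mul_le_mul hFc h2r (by positivity) (by positivity)
      _ = _ := by ring
  · intro x hx
    obtain ⟨f, hf, w, hw, hfw⟩ := mem_add.mp (hF hx)
    obtain ⟨g, hg, g', hg', hgg⟩ := mem_sub.mp hw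
    obtain ⟨p, hp, rfl⟩ := mem_image.mp hg
    obtain ⟨p', hp', rfl⟩ := mem_image.mp hg'
    have hp1 : ∀ i, p i ∈ uIcc (y i) (2 * y i) := Fintype.mem_piFinset.mp (mem_inter.mp hp).2
    have hp2 : ∀ i, p' i ∈ uIcc (y i) (2 * y i) := Fintype.mem_piFinset.mp (mem_inter.mp hp').2
    set Ex : Finset {i // y i ≠ 0} := univ.filter (fun i => (p i.1 - p' i.1) * y i.1 < 0) with hEx
    set c : Fin n → ℤ := fun i => if h : y i ≠ 0 then
      (if (⟨i, h⟩ : {i // y i ≠ 0}) ∈ Ex then -(((y i).natAbs + 1 : ℕ) : ℤ) * Int.sign (y i)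
        else 0) else 0 with hc
    set z : Fin n → ℤ := p - p' - c with hz
    have hzall : ∀ i, z i = (z i).natAbs * Int.sign (y i) ∧ (z i).natAbs < (y i).natAbs + 1 := by
      intro i
      have q1 := Finset.mem_uIcc'.mp (hp1 i)
      have q2 := Finset.mem_uIcc'.mp (hp2 i)
      have ez : z i = p i - p' i - c i := by rw [hz]; rfl
      by_cases h0 : y i = 0
      · have ec : c i = 0 := by rw [hc]; simp [h0]
        have : z i = 0 := by rw [ez, ec]; omega
        rw [this]
        simp
      · have hmem : (⟨i, h0⟩ : {i // y i ≠ 0}) ∈ Ex ↔ (p i - p' i) * y i < 0 := by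
          rw [hEx, mem_filter]
          simp
        have ec : c i = if (p i - p' i) * y i < 0 then
            -(((y i).natAbs + 1 : ℕ) : ℤ) * Int.sign (y i) else 0 := by
          rw [hc]
          simp only
          rw [dif_pos h0]
          by_cases h1 : (p i - p' i) * y i < 0
          · rw [if_pos h1, if_pos (hmem.mpr h1)]
          · rw [if_neg h1, if_neg (fun h => h1 (hmem.mp h))]
        rcases lt_or_gt_of_ne h0 with hneg | hpos
        · have es : Int.sign (y i) = -1 := Int.sign_eq_neg_one_of_neg hneg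
          rw [es] at ec ⊢
          by_cases h1 : (p i - p' i) * y i < 0
          · have h2 : 0 < p i - p' i := by
              by_contra hcon
              push Not at hcon
              have := mul_nonneg_of_nonpos_of_nonpos hcon hneg.le
              omega
            rw [if_pos h1] at ec
            rw [ez, ec]
            omega
          · have h2 : p i - p' i ≤ 0 := by
              by_contra hcon
              push Not at hcon
              have := mul_neg_of_pos_of_neg hcon hneg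
              omega
            rw [if_neg h1] at ec
            rw [ez, ec]
            omega
        · have es : Int.sign (y i) = 1 := Int.sign_eq_one_of_pos hpos
          rw [es] at ec ⊢
          by_cases h1 : (p i - p' i) * y i < 0
          · have h2 : p i - p' i < 0 := by
              by_contra hcon
              push Not at hcon
              have := mul_nonneg hcon hpos.le
              omega
            rw [if_pos h1] at ec
            rw [ez, ec]
            omega
          · have h2 : 0 ≤ p i - p' i := by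
              by_contra hcon
              push Not at hcon
              have := mul_neg_of_neg_of_pos hcon hpos
              omega
            rw [if_neg h1] at ec
            rw [ez, ec]
            omega
    refine ⟨tr (f, Ex), mem_image.mpr ⟨(f, Ex), mem_product.mpr ⟨hf, mem_univ _⟩, rfl⟩,
      fun j => (z (e j).1).natAbs, fun j => (hzall (e j).1).2, ?_⟩
    rw [hv]
    simp only
    rw [← decomp ψ y z e (fun i => (hzall i).1)]
    have e1 : tr (f, Ex) = f + ψ c := by rw [htr]
    have e2 : ψ z = ψ p - ψ p' - ψ c := by rw [hz, map_sub, map_sub]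
    rw [e1, e2, ← hfw, ← hgg]
    abel
  · intro hφi k k' hk hk' hkk
    rw [hv] at hkk
    simp only at hkk
    simp_rw [← map_nsmul] at hkk
    rw [← map_sum, ← map_sum] at hkk
    have h1 := hφi hkk
    funext j
    have h2 := congrFun h1 (e j).1
    rw [Finset.sum_apply, Finset.sum_apply] at h2
    have e3 : ∀ κ : Fin r → ℕ, ∑ c, (κ c • sg y (e c).1) (e j).1
        = (κ j : ℤ) * Int.sign (y (e j).1) := by
      intro κ
      rw [sum_eq_single j]
      · unfold sg
        simp
      · intro c _ hcj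
        unfold sg
        have : (e j).1 ≠ (e c).1 := by
          intro heq
          apply hcj
          exact e.injective (Subtype.ext heq.symm)
        simp [Pi.single_eq_of_ne this]
      · intro h
        exact absurd (mem_univ _) h
    rw [e3, e3] at h2
    have hs0 : Int.sign (y (e j).1) ≠ 0 := by
      rw [Ne, Int.sign_eq_zero_iff_zero]
      exact (e j).2
    have := mul_right_cancel₀ hs0 h2
    exact_mod_cast this

end Pool.Agent.TH893.PF.DBA
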