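import Mathlib

/-!
# One-dimensional weighted sup-convolution inequalities

`level`: if `F t * G s ≤ H (t + s)` and `max F = max G = 1` then
`∑ F ^ 2 + ∑ G ^ 2 - 1 ≤ ∑ H`.

`oneD1`: weighted inequality with weights majorised by `j ^ (-1/5)`.

`oneDV`: inequality with a gain `6/5` off the origin, against a profile `d` with maximum at `0`.
-/

open Finset
open scoped Pointwise

namespace TH893.PF

lemma erase_stepT {T U : Finset ℤ} {H : ℤ → ℝ} (hH : ∀ r ∈ T + U, 0 ≤ H r) {t₁ s₁ : ℤ}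
    (ht : t₁ ∈ T) (hs : s₁ ∈ U) (hne : t₁ + s₁ ∉ T.erase t₁ + U) :
    ∑ r ∈ T.erase t₁ + U, H r + H (t₁ + s₁) ≤ ∑ r ∈ T + U, H r := by
  have hsub : insert (t₁ + s₁) (T.erase t₁ + U) ⊆ T + U := by
    apply insert_subset (add_mem_add ht hs)
    exact add_subset_add_right (erase_subset _ _)
  calc _ = ∑ r ∈ insert (t₁ + s₁) (T.erase t₁ + U), H r := by
        rw [sum_insert hne, add_comm]
    _ ≤ _ := sum_le_sum_of_subset_of_nonneg hsub (fun r hr _ => hH r hr)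

lemma erase_stepU {T U : Finset ℤ} {H : ℤ → ℝ} (hH : ∀ r ∈ T + U, 0 ≤ H r) {t₁ s₁ : ℤ}
    (ht : t₁ ∈ T) (hs : s₁ ∈ U) (hne : t₁ + s₁ ∉ T + U.erase s₁) :
    ∑ r ∈ T + U.erase s₁, H r + H (t₁ + s₁) ≤ ∑ r ∈ T + U, H r := by
  have hsub : insert (t₁ + s₁) (T + U.erase s₁) ⊆ T + U := by
    apply insert_subset (add_mem_add ht hs)
    exact add_subset_add_left (erase_subset _ _)
  calc _ = ∑ r ∈ insert (t₁ + s₁) (T + U.erase s₁), H r := by
        rw [sum_insert hne, add_comm]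
    _ ≤ _ := sum_le_sum_of_subset_of_nonneg hsub (fun r hr _ => hH r hr)

/-- The level set inequality, by removing extreme elements. -/
theorem level (n : ℕ) : ∀ (T U : Finset ℤ) (F G H : ℤ → ℝ) (t₀ s₀ : ℤ), T.card + U.card ≤ n →
    t₀ ∈ T → s₀ ∈ U → F t₀ = 1 → G s₀ = 1 →
    (∀ t ∈ T, 0 ≤ F t ∧ F t ≤ 1) → (∀ s ∈ U, 0 ≤ G s ∧ G s ≤ 1) →
    (∀ r ∈ T + U, 0 ≤ H r) → (∀ t ∈ T, ∀ s ∈ U, F t * G s ≤ H (t + s)) →
    ∑ t ∈ T, F t ^ 2 + ∑ s ∈ U, G s ^ 2 - 1 ≤ ∑ r ∈ T + U, H r := by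
  induction n with
  | zero =>
    intro T U F G H t₀ s₀ hc ht
    have : 0 < T.card := card_pos.mpr ⟨t₀, ht⟩
    omega
  | succ n ih =>
    intro T U F G H t₀ s₀ hc ht₀ hs₀ hF₀ hG₀ hF hG hH h
    -- removal of an element of `T`
    have remT : ∀ t₁ ∈ T, ∀ s₁ ∈ U, t₁ ≠ t₀ → F t₁ ≤ G s₁ →
        (∀ t ∈ T, ∀ s ∈ U, t + s = t₁ + s₁ → t = t₁) →
        ∑ t ∈ T, F t ^ 2 + ∑ s ∈ U, G s ^ 2 - 1 ≤ ∑ r ∈ T + U, H r := by
      intro t₁ ht₁ s₁ hs₁ hne hle huniq
      have hnot : t₁ + s₁ ∉ T.erase t₁ + U := by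
        intro hmem
        obtain ⟨t, ht, s, hs, hts⟩ := mem_add.mp hmem
        exact (mem_erase.mp ht).1 (huniq t (mem_erase.mp ht).2 s hs hts)
      have hst := erase_stepT hH ht₁ hs₁ hnot
      have hsubTU : T.erase t₁ + U ⊆ T + U := add_subset_add_right (erase_subset _ _)
      have hcard : (T.erase t₁).card + U.card ≤ n := by
        have := card_erase_lt_of_mem ht₁
        omega
      have := ih (T.erase t₁) U F G H t₀ s₀ hcard (mem_erase.mpr ⟨hne.symm, ht₀⟩) hs₀ hF₀ hG₀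
        (fun t ht => hF t (mem_erase.mp ht).2) hG (fun r hr => hH r (hsubTU hr))
        (fun t ht s hs => h t (mem_erase.mp ht).2 s hs)
      have hsum : ∑ t ∈ T, F t ^ 2 = F t₁ ^ 2 + ∑ t ∈ T.erase t₁, F t ^ 2 :=
        (add_sum_erase T (fun t => F t ^ 2) ht₁).symm
      have hsq : F t₁ ^ 2 ≤ H (t₁ + s₁) := by
        refine le_trans ?_ (h t₁ ht₁ s₁ hs₁)
        rw [sq]
        exact mul_le_mul_of_nonneg_left hle (hF t₁ ht₁).1
      linarith
    have remU : ∀ t₁ ∈ T, ∀ s₁ ∈ U, s₁ ≠ s₀ → G s₁ ≤ F t₁ →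
        (∀ t ∈ T, ∀ s ∈ U, t + s = t₁ + s₁ → s = s₁) →
        ∑ t ∈ T, F t ^ 2 + ∑ s ∈ U, G s ^ 2 - 1 ≤ ∑ r ∈ T + U, H r := by
      intro t₁ ht₁ s₁ hs₁ hne hle huniq
      have hnot : t₁ + s₁ ∉ T + U.erase s₁ := by
        intro hmem
        obtain ⟨t, ht, s, hs, hts⟩ := mem_add.mp hmem
        exact (mem_erase.mp hs).1 (huniq t ht s (mem_erase.mp hs).2 hts)
      have hst := erase_stepU hH ht₁ hs₁ hnot
      have hsubTU : T + U.erase s₁ ⊆ T + U := add_subset_add_left (erase_subset _ _)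
      have hcard : T.card + (U.erase s₁).card ≤ n := by
        have := card_erase_lt_of_mem hs₁
        omega
      have := ih T (U.erase s₁) F G H t₀ s₀ hcard ht₀ (mem_erase.mpr ⟨hne.symm, hs₀⟩) hF₀ hG₀
        hF (fun s hs => hG s (mem_erase.mp hs).2) (fun r hr => hH r (hsubTU hr))
        (fun t ht s hs => h t ht s (mem_erase.mp hs).2)
      have hsum : ∑ t ∈ U, G t ^ 2 = G s₁ ^ 2 + ∑ t ∈ U.erase s₁, G t ^ 2 :=
        (add_sum_erase U (fun t => G t ^ 2) hs₁).symm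
      have hsq : G s₁ ^ 2 ≤ H (t₁ + s₁) := by
        refine le_trans ?_ (h t₁ ht₁ s₁ hs₁)
        rw [sq]
        exact mul_le_mul_of_nonneg_right hle (hG s₁ hs₁).1
      linarith
    -- step at a corner
    have corner : ∀ t₁ ∈ T, ∀ s₁ ∈ U, ¬ (t₁ = t₀ ∧ s₁ = s₀) →
        (∀ t ∈ T, ∀ s ∈ U, t + s = t₁ + s₁ → t = t₁ ∧ s = s₁) →
        ∑ t ∈ T, F t ^ 2 + ∑ s ∈ U, G s ^ 2 - 1 ≤ ∑ r ∈ T + U, H r := by
      intro t₁ ht₁ s₁ hs₁ hne huniq
      rcases le_total (F t₁) (G s₁) with hle | hle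
      · by_cases h1 : t₁ = t₀
        · have hs1 : s₁ ≠ s₀ := fun h2 => hne ⟨h1, h2⟩
          apply remU t₁ ht₁ s₁ hs₁ hs1 _ (fun t ht s hs hh => (huniq t ht s hs hh).2)
          rw [h1, hF₀]
          exact (hG s₁ hs₁).2
        · exact remT t₁ ht₁ s₁ hs₁ h1 hle (fun t ht s hs hh => (huniq t ht s hs hh).1)
      · by_cases h1 : s₁ = s₀
        · have hs1 : t₁ ≠ t₀ := fun h2 => hne ⟨h2, h1⟩
          apply remT t₁ ht₁ s₁ hs₁ hs1 _ (fun t ht s hs hh => (huniq t ht s hs hh).1)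
          rw [h1, hG₀]
          exact (hF t₁ ht₁).2
        · exact remU t₁ ht₁ s₁ hs₁ h1 hle (fun t ht s hs hh => (huniq t ht s hs hh).2)
    have hTn : T.Nonempty := ⟨t₀, ht₀⟩
    have hUn : U.Nonempty := ⟨s₀, hs₀⟩
    by_cases htop : T.max' hTn = t₀ ∧ U.max' hUn = s₀
    · by_cases hbot : T.min' hTn = t₀ ∧ U.min' hUn = s₀
      · have hT1 : T = {t₀} := by
          ext t
          constructor
          · intro ht
            have h1 := T.le_max' t ht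
            have h2 := T.min'_le t ht
            rw [mem_singleton]
            omega
          · intro ht
            rw [mem_singleton.mp ht]
            exact ht₀
        have hU1 : U = {s₀} := by
          ext t
          constructor
          · intro ht
            have h1 := U.le_max' t ht
            have h2 := U.min'_le t ht
            rw [mem_singleton]
            omega
          · intro ht
            rw [mem_singleton.mp ht]
            exact hs₀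
        have := h t₀ ht₀ s₀ hs₀
        rw [hT1, hU1, singleton_add_singleton, sum_singleton, sum_singleton, sum_singleton]
        rw [hF₀, hG₀] at this ⊢
        linarith
      · apply corner _ (T.min'_mem hTn) _ (U.min'_mem hUn) hbot
        intro t ht s hs hts
        have h1 := T.min'_le t ht
        have h2 := U.min'_le s hs
        constructor <;> omega
    · apply corner _ (T.max'_mem hTn) _ (U.max'_mem hUn) htop
      intro t ht s hs hts
      have h1 := T.le_max' t ht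
      have h2 := U.le_max' s hs
      constructor <;> omega

lemma suml {T U : Finset ℤ} {F G H : ℤ → ℝ} {s₀ : ℤ} (hs₀ : s₀ ∈ U) (hG₀ : G s₀ = 1)
    (hH : ∀ r ∈ T + U, 0 ≤ H r) (h : ∀ t ∈ T, ∀ s ∈ U, F t * G s ≤ H (t + s)) :
    ∑ t ∈ T, F t ≤ ∑ r ∈ T + U, H r := by
  calc ∑ t ∈ T, F t ≤ ∑ t ∈ T, H (t + s₀) := by
        apply sum_le_sum
        intro t ht
        have := h t ht s₀ hs₀
        rwa [hG₀, mul_one] at this
    _ = ∑ r ∈ T.image (fun t => t + s₀), H r := by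
        rw [sum_image]
        intro x _ y _ hxy
        simpa using hxy
    _ ≤ ∑ r ∈ T + U, H r := by
        apply sum_le_sum_of_subset_of_nonneg
        · intro r hr
          obtain ⟨t, ht, rfl⟩ := mem_image.mp hr
          exact add_mem_add ht hs₀
        · intro r hr _
          exact hH r hr

lemma sumr {T U : Finset ℤ} {F G H : ℤ → ℝ} {t₀ : ℤ} (ht₀ : t₀ ∈ T) (hF₀ : F t₀ = 1)
    (hH : ∀ r ∈ T + U, 0 ≤ H r) (h : ∀ t ∈ T, ∀ s ∈ U, F t * G s ≤ H (t + s)) :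
    ∑ s ∈ U, G s ≤ ∑ r ∈ T + U, H r := by
  calc ∑ t ∈ U, G t ≤ ∑ t ∈ U, H (t₀ + t) := by
        apply sum_le_sum
        intro t ht
        have := h t₀ ht₀ t ht
        rwa [hF₀, one_mul] at this
    _ = ∑ r ∈ U.image (fun t => t₀ + t), H r := by
        rw [sum_image]
        intro x _ y _ hxy
        simpa using hxy
    _ ≤ ∑ r ∈ T + U, H r := by
        apply sum_le_sum_of_subset_of_nonneg
        · intro r hr
          obtain ⟨t, ht, rfl⟩ := mem_image.mp hr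
          exact add_mem_add ht₀ ht
        · intro r hr _
          exact hH r hr

/-! ### Fifth roots and the majorant -/

/-- The fifth root. -/
noncomputable def r5 (x : ℝ) : ℝ := x ^ ((1 : ℝ) / 5)

/-- The eighth root. -/
noncomputable def r8 (x : ℝ) : ℝ := x ^ ((1 : ℝ) / 8)

lemma r5_pow {x : ℝ} (hx : 0 ≤ x) : r5 x ^ 5 = x := by
  unfold r5
  rw [← Real.rpow_natCast, ← Real.rpow_mul hx]
  norm_num

lemma r8_pow {x : ℝ} (hx : 0 ≤ x) : r8 x ^ 8 = x := by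
  unfold r8
  rw [← Real.rpow_natCast, ← Real.rpow_mul hx]
  norm_num

lemma r5_pos {x : ℝ} (hx : 0 < x) : 0 < r5 x := Real.rpow_pos_of_pos hx _

lemma r8_pos {x : ℝ} (hx : 0 < x) : 0 < r8 x := Real.rpow_pos_of_pos hx _

lemma r8_nonneg {x : ℝ} (hx : 0 ≤ x) : 0 ≤ r8 x := Real.rpow_nonneg hx _

lemma r5_mono {x y : ℝ} (hx : 0 ≤ x) (hxy : x ≤ y) : r5 x ≤ r5 y :=
  Real.rpow_le_rpow hx hxy (by norm_num)

/-- The sum of `j ^ (-1/5)` over `1 ≤ j ≤ n`. -/
noncomputable def hh (n : ℕ) : ℝ := ∑ j ∈ range n, (r5 ((j : ℝ) + 1))⁻¹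

lemma poly5 {a s : ℝ} (ha : 0 ≤ a) (hs : 0 ≤ s) : 5 * a ^ 4 * s ≤ 4 * a ^ 5 + s ^ 5 := by
  have : 4 * a ^ 5 + s ^ 5 - 5 * a ^ 4 * s
      = (a - s) ^ 2 * (4 * a ^ 3 + 3 * a ^ 2 * s + 2 * a * s ^ 2 + s ^ 3) := by ring
  have h2 : 0 ≤ (a - s) ^ 2 * (4 * a ^ 3 + 3 * a ^ 2 * s + 2 * a * s ^ 2 + s ^ 3) := by
    positivity
  linarith

lemma poly8 {f : ℝ} (hf : 0 ≤ f) : 5 * f ^ 8 ≤ 3 * f ^ 10 + 2 * f ^ 5 := by
  have : 3 * f ^ 10 + 2 * f ^ 5 - 5 * f ^ 8
      = f ^ 5 * ((f - 1) ^ 2 * (3 * f ^ 3 + 6 * f ^ 2 + 4 * f + 2)) := by ring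
  have h2 : 0 ≤ f ^ 5 * ((f - 1) ^ 2 * (3 * f ^ 3 + 6 * f ^ 2 + 4 * f + 2)) := by positivity
  linarith

lemma hh_le (n : ℕ) : hh (n + 1) ≤ r5 ((10 * ((n : ℝ) + 1) - 3) / 7) ^ 4 := by
  induction n with
  | zero =>
    unfold hh
    have h1 : r5 1 = 1 := by unfold r5; exact Real.one_rpow _
    have e : ((10 * (((0 : ℕ) : ℝ) + 1) - 3) / 7) = 1 := by norm_num
    rw [e, h1]
    simp [h1]
  | succ n ih =>
    have hn : (0 : ℝ) ≤ n := Nat.cast_nonneg n
    set α' := r5 ((10 * ((n : ℝ) + 1) - 3) / 7) with hα'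
    set α := r5 ((10 * (((n + 1 : ℕ) : ℝ) + 1) - 3) / 7) with hα
    set β := r5 (((n + 1 : ℕ) : ℝ) + 1) with hβ
    have e1 : α' ^ 5 = (10 * ((n : ℝ) + 1) - 3) / 7 := r5_pow (by
      apply div_nonneg <;> linarith)
    have e2 : α ^ 5 = (10 * (((n + 1 : ℕ) : ℝ) + 1) - 3) / 7 := r5_pow (by
      push_cast
      apply div_nonneg <;> linarith)
    have e3 : β ^ 5 = ((n + 1 : ℕ) : ℝ) + 1 := r5_pow (by positivity)
    have p1 : 0 < α' := r5_pos (by apply div_pos <;> linarith)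
    have p2 : 0 < α := r5_pos (by push_cast; apply div_pos <;> linarith)
    have p3 : 0 < β := r5_pos (by positivity)
    have hs : hh (n + 1 + 1) = hh (n + 1) + β⁻¹ := by
      unfold hh
      rw [sum_range_succ _ (n + 1)]
    have hαβ : α ≤ 8 / 7 * β := by
      rw [← pow_le_pow_iff_left₀ p2.le (by positivity) (by norm_num : (5 : ℕ) ≠ 0), mul_pow, e2, e3]
      push_cast
      linarith
    have hp := poly5 p1.le p2.le
    push_cast at e2
    have h4 : 8 / 7 ≤ (α ^ 4 - α' ^ 4) * α := by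
      have : α ^ 4 * α = α ^ 5 := by ring
      nlinarith
    have h5 : β⁻¹ ≤ α ^ 4 - α' ^ 4 := by
      have h6 : β⁻¹ ≤ (8 / 7) / α := by
        rw [inv_eq_one_div, div_le_div_iff₀ p3 p2]
        linarith
      refine h6.trans ?_
      rw [div_le_iff₀ p2]
      exact h4
    rw [hs]
    linarith

/-- The majorant below every tangent line. -/
lemma hh_tangent {n : ℕ} (hn : 1 ≤ n) {σ : ℝ} (hσ : 0 < σ) :
    hh n ≤ 4 / 5 * ((10 * (n : ℝ) - 3) / 7) / σ + 1 / 5 * σ ^ 4 := by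
  obtain ⟨m, rfl⟩ : ∃ m, n = m + 1 := ⟨n - 1, by omega⟩
  have hm : (0 : ℝ) ≤ m := Nat.cast_nonneg m
  refine (hh_le m).trans ?_
  push_cast
  set α := r5 ((10 * ((m : ℝ) + 1) - 3) / 7) with hα
  have e1 : α ^ 5 = (10 * ((m : ℝ) + 1) - 3) / 7 := r5_pow (by apply div_nonneg <;> linarith)
  have p1 : 0 < α := r5_pos (by apply div_pos <;> linarith)
  have hp := poly5 p1.le hσ.le
  rw [← e1]
  rw [show (4 : ℝ) / 5 * α ^ 5 / σ + 1 / 5 * σ ^ 4 = (4 / 5 * α ^ 5 + 1 / 5 * σ ^ 5) / σ by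
    field_simp]
  rw [le_div_iff₀ hσ]
  linarith

/-- The weighted sum is bounded by the quadratic and linear sums. -/
theorem weighted (T : Finset ℤ) (f u : ℤ → ℝ) (t₀ : ℤ) (ht₀ : t₀ ∈ T) (hf₀ : f t₀ = 1)
    (hf : ∀ t ∈ T, 0 ≤ f t ∧ f t ≤ 1) (hu0 : ∀ t, 0 ≤ u t)
    (hu : ∀ E : Finset ℤ, ∑ t ∈ E, u t ≤ hh E.card) :
    (∑ t ∈ T, f t ^ 8 * u t) ^ 5
      ≤ ((6 * ∑ t ∈ T, f t ^ 10 + 4 * ∑ t ∈ T, f t ^ 5 - 3) / 7) ^ 4 := by
  classical
  set X := ∑ t ∈ T, f t ^ 10 with hX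
  set Y := ∑ t ∈ T, f t ^ 5 with hY
  have hX1 : 1 ≤ X := by
    have := single_le_sum (f := fun t => f t ^ 10) (fun t ht => pow_nonneg (hf t ht).1 10) ht₀
    simpa [hf₀] using this
  have hY1 : 1 ≤ Y := by
    have := single_le_sum (f := fun t => f t ^ 5) (fun t ht => pow_nonneg (hf t ht).1 5) ht₀
    simpa [hf₀] using this
  set R := (6 * X + 4 * Y - 3) / 7 with hR
  have hR1 : 1 ≤ R := by rw [hR]; linarith
  set σ := r5 R with hσ
  have hσp : 0 < σ := r5_pos (by linarith)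
  have hσ5 : σ ^ 5 = R := r5_pow (by linarith)
  have key : ∑ t ∈ T, f t ^ 8 * u t ≤ σ ^ 4 := by
    set κ := 8 / 7 / σ with hκ
    set E := insert t₀ (T.filter (fun t => κ < u t)) with hE
    have hET : E ⊆ T := by
      rw [hE]
      apply insert_subset ht₀ (filter_subset _ _)
    set g : ℤ → ℝ := fun t => f t ^ 8 * u t - 4 / 5 * (6 * f t ^ 10 + 4 * f t ^ 5) / 7 / σ with hg
    have g1 : ∀ t ∈ T, g t ≤ f t ^ 8 * (u t - κ) := by
      intro t ht
      have h8 := poly8 (hf t ht).1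
      rw [hg, hκ]
      have : f t ^ 8 * (8 / 7 / σ) ≤ 4 / 5 * (6 * f t ^ 10 + 4 * f t ^ 5) / 7 / σ := by
        rw [← mul_div_assoc]
        apply div_le_div_of_nonneg_right _ hσp.le
        linarith
      have e : f t ^ 8 * (u t - 8 / 7 / σ) = f t ^ 8 * u t - f t ^ 8 * (8 / 7 / σ) := by ring
      rw [e]
      simp only
      linarith
    have g2 : ∀ t ∈ T \ E, g t ≤ 0 := by
      intro t ht
      obtain ⟨htT, htE⟩ := mem_sdiff.mp ht
      have hle : u t ≤ κ := by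
        by_contra hcon
        push Not at hcon
        exact htE (mem_insert_of_mem (mem_filter.mpr ⟨htT, hcon⟩))
      refine (g1 t htT).trans ?_
      apply mul_nonpos_of_nonneg_of_nonpos (pow_nonneg (hf t htT).1 8)
      linarith
    have g3 : ∀ t ∈ E, g t ≤ u t - κ := by
      intro t ht
      by_cases h0 : t = t₀
      · rw [h0, hg, hκ]
        simp only [hf₀, one_pow, one_mul, mul_one]
        apply le_of_eq
        congr 1
        field_simp
        norm_num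
      · have htF : t ∈ T.filter (fun t => κ < u t) := by
          rcases mem_insert.mp ht with h1 | h1
          · exact absurd h1 h0
          · exact h1
        obtain ⟨htT, hlt⟩ := mem_filter.mp htF
        refine (g1 t htT).trans ?_
        have : f t ^ 8 ≤ 1 := pow_le_one₀ (hf t htT).1 (hf t htT).2
        have h2 : 0 ≤ u t - κ := by linarith
        nlinarith
    have hsumg : ∑ t ∈ T, g t ≤ hh E.card - κ * E.card := by
      calc ∑ t ∈ T, g t = ∑ t ∈ T \ E, g t + ∑ t ∈ E, g t := (sum_sdiff hET).symm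
        _ ≤ 0 + ∑ t ∈ E, (u t - κ) := add_le_add (sum_nonpos g2) (sum_le_sum g3)
        _ = ∑ t ∈ E, u t - κ * E.card := by
            rw [zero_add, sum_sub_distrib, sum_const, nsmul_eq_mul]
            ring
        _ ≤ _ := by linarith [hu E]
    have hE1 : 1 ≤ E.card := card_pos.mpr ⟨t₀, mem_insert_self _ _⟩
    have htan := hh_tangent hE1 hσp
    have hgs : ∑ t ∈ T, g t = ∑ t ∈ T, f t ^ 8 * u t - 4 / 5 * (6 * X + 4 * Y) / 7 / σ := by
      rw [hg]
      simp only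
      rw [sum_sub_distrib]
      congr 1
      rw [hX, hY, mul_sum, mul_sum, ← sum_add_distrib, mul_sum, sum_div, sum_div]
    have e6 : (6 * X + 4 * Y) / 7 = R + 3 / 7 := by rw [hR]; ring
    have e7 : 4 / 5 * (6 * X + 4 * Y) / 7 / σ = 4 / 5 * (R + 3 / 7) / σ := by
      rw [← e6]; ring
    have e8 : R / σ = σ ^ 4 := by
      rw [← hσ5]
      field_simp
    have e9 : 4 / 5 * (R + 3 / 7) / σ = 4 / 5 * σ ^ 4 + 12 / 35 / σ := by
      rw [← e8]; ring
    have e10 : 4 / 5 * ((10 * (E.card : ℝ) - 3) / 7) / σ = κ * E.card - 12 / 35 / σ := by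
      rw [hκ]; ring
    rw [hgs, e7, e9] at hsumg
    rw [e10] at htan
    linarith
  have h0 : 0 ≤ ∑ t ∈ T, f t ^ 8 * u t :=
    sum_nonneg (fun t ht => mul_nonneg (pow_nonneg (hf t ht).1 8) (hu0 t))
  calc (∑ t ∈ T, f t ^ 8 * u t) ^ 5 ≤ (σ ^ 4) ^ 5 := pow_le_pow_left₀ h0 key 5
    _ = (σ ^ 5) ^ 4 := by ring
    _ = R ^ 4 := by rw [hσ5]

end TH893.PF
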