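import Pool.Agent.TH893.PF.OneD

/-!
# The two one-dimensional inequalities used in the induction on the dimension
-/

open Finset
open scoped Pointwise

namespace TH893.PF

/-- First one-dimensional inequality (weights majorised by `j ^ (-1/5)`). -/
theorem oneD1 (T U : Finset ℤ) (hT : T.Nonempty) (hU : U.Nonempty) (a b u H : ℤ → ℝ)
    (ha : ∀ t ∈ T, 0 < a t) (hb : ∀ s ∈ U, 0 < b s) (hu0 : ∀ t, 0 ≤ u t)
    (hu : ∀ E : Finset ℤ, ∑ t ∈ E, u t ≤ hh E.card) (hH : ∀ r ∈ T + U, 0 ≤ H r)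
    (h : ∀ t ∈ T, ∀ s ∈ U, (a t * b s) ^ 5 ≤ H (t + s) ^ 8) :
    (∑ t ∈ T, a t * u t) ^ 5 * (∑ s ∈ U, b s * u s) ^ 5 ≤ (∑ r ∈ T + U, H r) ^ 8 := by
  obtain ⟨t₀, ht₀, hmax⟩ := exists_max_image T a hT
  obtain ⟨s₀, hs₀, hmax'⟩ := exists_max_image U b hU
  set m := a t₀ with hm
  set m' := b s₀ with hm'
  have mp : 0 < m := ha t₀ ht₀
  have mp' : 0 < m' := hb s₀ hs₀
  set f : ℤ → ℝ := fun t => r8 (a t / m) with hf
  set g : ℤ → ℝ := fun t => r8 (b t / m') with hg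
  set κ := r8 ((m * m') ^ 5) with hκ
  have κp : 0 < κ := r8_pos (by positivity)
  have κ8 : κ ^ 8 = (m * m') ^ 5 := r8_pow (by positivity)
  have f8 : ∀ t ∈ T, f t ^ 8 = a t / m := fun t ht => r8_pow (div_nonneg (ha t ht).le mp.le)
  have g8 : ∀ t ∈ U, g t ^ 8 = b t / m' := fun t ht => r8_pow (div_nonneg (hb t ht).le mp'.le)
  have f0 : ∀ t ∈ T, 0 ≤ f t := fun t ht => r8_nonneg (div_nonneg (ha t ht).le mp.le)
  have g0 : ∀ t ∈ U, 0 ≤ g t := fun t ht => r8_nonneg (div_nonneg (hb t ht).le mp'.le)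
  have f1 : ∀ t ∈ T, f t ≤ 1 := by
    intro t ht
    rw [← pow_le_pow_iff_left₀ (f0 t ht) zero_le_one (by norm_num : (8 : ℕ) ≠ 0), f8 t ht, one_pow,
      div_le_one mp]
    exact hmax t ht
  have g1 : ∀ t ∈ U, g t ≤ 1 := by
    intro t ht
    rw [← pow_le_pow_iff_left₀ (g0 t ht) zero_le_one (by norm_num : (8 : ℕ) ≠ 0), g8 t ht, one_pow,
      div_le_one mp']
    exact hmax' t ht
  have ff0 : f t₀ = 1 := by
    rw [hf]
    simp only
    rw [← hm, div_self mp.ne']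
    exact Real.one_rpow _
  have gg0 : g s₀ = 1 := by
    rw [hg]
    simp only
    rw [← hm', div_self mp'.ne']
    exact Real.one_rpow _
  set H' : ℤ → ℝ := fun r => H r / κ with hH'
  have hH'0 : ∀ r ∈ T + U, 0 ≤ H' r := fun r hr => div_nonneg (hH r hr) κp.le
  have hconv : ∀ t ∈ T, ∀ s ∈ U, f t ^ 5 * g s ^ 5 ≤ H' (t + s) := by
    intro t ht s hs
    have hr : t + s ∈ T + U := add_mem_add ht hs
    have p0 : 0 ≤ f t ^ 5 * g s ^ 5 :=
      mul_nonneg (pow_nonneg (f0 t ht) 5) (pow_nonneg (g0 s hs) 5)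
    rw [← pow_le_pow_iff_left₀ p0 (hH'0 _ hr) (by norm_num : (8 : ℕ) ≠ 0)]
    calc (f t ^ 5 * g s ^ 5) ^ 8 = (f t ^ 8 * g s ^ 8) ^ 5 := by ring
      _ = (a t * b s) ^ 5 / (m * m') ^ 5 := by
          rw [f8 t ht, g8 s hs, ← div_pow]
          congr 1
          field_simp
      _ ≤ H (t + s) ^ 8 / (m * m') ^ 5 :=
          div_le_div_of_nonneg_right (h t ht s hs) (by positivity)
      _ = H' (t + s) ^ 8 := by
          rw [hH']
          simp only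
          rw [div_pow, κ8]
  have hFF : ∀ t ∈ T, 0 ≤ f t ^ 5 ∧ f t ^ 5 ≤ 1 := fun t ht =>
    ⟨pow_nonneg (f0 t ht) 5, pow_le_one₀ (f0 t ht) (f1 t ht)⟩
  have hGG : ∀ t ∈ U, 0 ≤ g t ^ 5 ∧ g t ^ 5 ≤ 1 := fun t ht =>
    ⟨pow_nonneg (g0 t ht) 5, pow_le_one₀ (g0 t ht) (g1 t ht)⟩
  have L1 := level (T.card + U.card) T U (fun t => f t ^ 5) (fun s => g s ^ 5) H' t₀ s₀ le_rfl
    ht₀ hs₀ (by simp [ff0]) (by simp [gg0]) hFF hGG hH'0 hconv
  have L2 := suml (F := fun t => f t ^ 5) (G := fun s => g s ^ 5) hs₀ (by simp [gg0]) hH'0 hconv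
  have L3 := sumr (F := fun t => f t ^ 5) (G := fun s => g s ^ 5) ht₀ (by simp [ff0]) hH'0 hconv
  have W1 := weighted T f u t₀ ht₀ ff0 (fun t ht => ⟨f0 t ht, f1 t ht⟩) hu0 hu
  have W2 := weighted U g u s₀ hs₀ gg0 (fun t ht => ⟨g0 t ht, g1 t ht⟩) hu0 hu
  have e1 : ∑ t ∈ T, (f t ^ 5) ^ 2 = ∑ t ∈ T, f t ^ 10 :=
    sum_congr rfl (fun t _ => by ring)
  have e2 : ∑ t ∈ U, (g t ^ 5) ^ 2 = ∑ t ∈ U, g t ^ 10 :=
    sum_congr rfl (fun t _ => by ring)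
  rw [e1, e2] at L1
  set X := ∑ t ∈ T, f t ^ 10
  set Y := ∑ t ∈ T, f t ^ 5
  set X' := ∑ t ∈ U, g t ^ 10
  set Y' := ∑ t ∈ U, g t ^ 5
  set S := ∑ r ∈ T + U, H' r with hS
  have hX1 : 1 ≤ X := by
    have := single_le_sum (f := fun t => f t ^ 10) (fun t ht => pow_nonneg (f0 t ht) 10) ht₀
    simpa [ff0] using this
  have hY1 : 1 ≤ Y := by
    have := single_le_sum (f := fun t => f t ^ 5) (fun t ht => pow_nonneg (f0 t ht) 5) ht₀
    simpa [ff0] using this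
  have hX1' : 1 ≤ X' := by
    have := single_le_sum (f := fun t => g t ^ 10) (fun t ht => pow_nonneg (g0 t ht) 10) hs₀
    simpa [gg0] using this
  have hY1' : 1 ≤ Y' := by
    have := single_le_sum (f := fun t => g t ^ 5) (fun t ht => pow_nonneg (g0 t ht) 5) hs₀
    simpa [gg0] using this
  have hR1 : 1 ≤ (6 * X + 4 * Y - 3) / 7 := by linarith
  have hR1' : 1 ≤ (6 * X' + 4 * Y' - 3) / 7 := by linarith
  have hRR : (6 * X + 4 * Y - 3) / 7 * ((6 * X' + 4 * Y' - 3) / 7) ≤ S ^ 2 := by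
    have hs : (6 * X + 4 * Y - 3) / 7 + (6 * X' + 4 * Y' - 3) / 7 ≤ 2 * S := by linarith
    nlinarith [sq_nonneg ((6 * X + 4 * Y - 3) / 7 - (6 * X' + 4 * Y' - 3) / 7)]
  have hSS : S = (∑ r ∈ T + U, H r) / κ := by rw [hS, hH', sum_div]
  have eA : ∑ t ∈ T, a t * u t = m * ∑ t ∈ T, f t ^ 8 * u t := by
    rw [mul_sum]
    apply sum_congr rfl
    intro t ht
    rw [f8 t ht]
    field_simp
  have eB : ∑ t ∈ U, b t * u t = m' * ∑ t ∈ U, g t ^ 8 * u t := by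
    rw [mul_sum]
    apply sum_congr rfl
    intro t ht
    rw [g8 t ht]
    field_simp
  have n2 : 0 ≤ (∑ t ∈ U, g t ^ 8 * u t) ^ 5 :=
    pow_nonneg (sum_nonneg (fun t ht => mul_nonneg (pow_nonneg (g0 t ht) 8) (hu0 t))) 5
  rw [eA, eB]
  calc (m * ∑ t ∈ T, f t ^ 8 * u t) ^ 5 * (m' * ∑ t ∈ U, g t ^ 8 * u t) ^ 5
      = (m * m') ^ 5 * ((∑ t ∈ T, f t ^ 8 * u t) ^ 5 * (∑ t ∈ U, g t ^ 8 * u t) ^ 5) := by ring
    _ ≤ (m * m') ^ 5 * (((6 * X + 4 * Y - 3) / 7) ^ 4 * ((6 * X' + 4 * Y' - 3) / 7) ^ 4) := by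
        apply mul_le_mul_of_nonneg_left _ (by positivity)
        exact mul_le_mul W1 W2 n2 (by positivity)
    _ = (m * m') ^ 5 * ((6 * X + 4 * Y - 3) / 7 * ((6 * X' + 4 * Y' - 3) / 7)) ^ 4 := by ring
    _ ≤ (m * m') ^ 5 * (S ^ 2) ^ 4 := by
        apply mul_le_mul_of_nonneg_left _ (by positivity)
        apply pow_le_pow_left₀ _ hRR
        have := mul_pos (show 0 < (6 * X + 4 * Y - 3) / 7 by linarith)
          (show 0 < (6 * X' + 4 * Y' - 3) / 7 by linarith)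
        exact this.le
    _ = (∑ r ∈ T + U, H r) ^ 8 := by
        rw [hSS, ← κ8]
        field_simp

/-- Cauchy-Schwarz with part of the mass moved to the origin. -/
theorem csV (Q : Finset ℤ) (F d : ℤ → ℝ) (t₀ : ℤ) (h0 : (0 : ℤ) ∈ Q) (ht₀ : t₀ ∈ Q)
    (hF₀ : F t₀ = 1) (hF : ∀ t ∈ Q, 0 ≤ F t ∧ F t ≤ 1) (hd : ∀ t ∈ Q, 0 ≤ d t)
    (hd0 : ∀ t ∈ Q, d t ≤ d 0) :
    (∑ t ∈ Q, (if t = 0 then 1 else (6 / 5 : ℝ)) * F t * d t) ^ 2
      ≤ (∑ t ∈ Q, F t ^ 2 - 1 / 2 + 1 / 2 * ∑ t ∈ Q, F t) * ∑ t ∈ Q, d t ^ 2 := by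
  have hD : 0 ≤ ∑ t ∈ Q, d t ^ 2 := sum_nonneg (fun t _ => sq_nonneg _)
  by_cases hz : t₀ = 0
  · refine (sum_mul_sq_le_sq_mul_sq Q (fun t => (if t = 0 then 1 else (6 / 5 : ℝ)) * F t) d).trans ?_
    apply mul_le_mul_of_nonneg_right _ hD
    rw [← add_sum_erase Q (fun t => ((if t = 0 then 1 else (6 / 5 : ℝ)) * F t) ^ 2) h0,
      ← add_sum_erase Q (fun t => F t ^ 2) h0, ← add_sum_erase Q F h0]
    rw [hz] at hF₀
    simp only [if_true, hF₀]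
    have : ∑ t ∈ Q.erase 0, ((if t = 0 then 1 else (6 / 5 : ℝ)) * F t) ^ 2
        ≤ ∑ t ∈ Q.erase 0, F t ^ 2 + 1 / 2 * ∑ t ∈ Q.erase 0, F t := by
      rw [mul_sum, ← sum_add_distrib]
      apply sum_le_sum
      intro t ht
      obtain ⟨hne, htQ⟩ := mem_erase.mp ht
      rw [if_neg hne]
      obtain ⟨h1, h2⟩ := hF t htQ
      nlinarith
    linarith
  · have ht₀' : t₀ ∈ Q.erase 0 := mem_erase.mpr ⟨hz, ht₀⟩
    set c : ℤ → ℝ := fun t => if t = 0 then F 0 + 1 / 4 else if t = t₀ then 19 / 20 else 6 / 5 * F t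
      with hc
    have hc0 : ∀ t ∈ Q, 0 ≤ c t := by
      intro t ht
      rw [hc]
      simp only
      have := (hF t ht).1
      have := (hF 0 h0).1
      split_ifs <;> linarith
    have hle : ∑ t ∈ Q, (if t = 0 then 1 else (6 / 5 : ℝ)) * F t * d t ≤ ∑ t ∈ Q, c t * d t := by
      rw [← add_sum_erase Q (fun t => (if t = 0 then 1 else (6 / 5 : ℝ)) * F t * d t) h0,
        ← add_sum_erase Q (fun t => c t * d t) h0,
        ← add_sum_erase (Q.erase 0) (fun t => (if t = 0 then 1 else (6 / 5 : ℝ)) * F t * d t) ht₀',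
        ← add_sum_erase (Q.erase 0) (fun t => c t * d t) ht₀']
      have e : ∑ t ∈ (Q.erase 0).erase t₀, (if t = 0 then 1 else (6 / 5 : ℝ)) * F t * d t
          = ∑ t ∈ (Q.erase 0).erase t₀, c t * d t := by
        apply sum_congr rfl
        intro t ht
        obtain ⟨hne, ht1⟩ := mem_erase.mp ht
        obtain ⟨hne0, htQ⟩ := mem_erase.mp ht1
        rw [hc]
        simp only
        rw [if_neg hne0, if_neg hne0, if_neg hne]
      rw [e]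
      rw [hc]
      simp only [if_true, if_neg hz, hF₀]
      have := hd0 t₀ ht₀
      have := hd t₀ ht₀
      linarith
    have hnn : 0 ≤ ∑ t ∈ Q, (if t = 0 then 1 else (6 / 5 : ℝ)) * F t * d t := by
      apply sum_nonneg
      intro t ht
      have := (hF t ht).1
      have := hd t ht
      split_ifs <;> positivity
    refine (pow_le_pow_left₀ hnn hle 2).trans ?_
    refine (sum_mul_sq_le_sq_mul_sq Q c d).trans ?_
    apply mul_le_mul_of_nonneg_right _ hD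
    rw [← add_sum_erase Q (fun t => c t ^ 2) h0,
      ← add_sum_erase (Q.erase 0) (fun t => c t ^ 2) ht₀',
      ← add_sum_erase Q (fun t => F t ^ 2) h0,
      ← add_sum_erase (Q.erase 0) (fun t => F t ^ 2) ht₀',
      ← add_sum_erase Q F h0,
      ← add_sum_erase (Q.erase 0) F ht₀']
    have : ∑ t ∈ (Q.erase 0).erase t₀, c t ^ 2
        ≤ ∑ t ∈ (Q.erase 0).erase t₀, F t ^ 2 + 1 / 2 * ∑ t ∈ (Q.erase 0).erase t₀, F t := by
      rw [mul_sum, ← sum_add_distrib]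
      apply sum_le_sum
      intro t ht
      obtain ⟨hne, ht1⟩ := mem_erase.mp ht
      obtain ⟨hne0, htQ⟩ := mem_erase.mp ht1
      rw [hc]
      simp only
      rw [if_neg hne0, if_neg hne]
      obtain ⟨h1, h2⟩ := hF t htQ
      nlinarith
    have c0 : c 0 = F 0 + 1 / 4 := by rw [hc]; simp
    have c1 : c t₀ = 19 / 20 := by rw [hc]; simp [hz]
    rw [c0, c1, hF₀]
    nlinarith

/-- Second one-dimensional inequality (gain `6/5` off the origin). -/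
theorem oneDV (T U Q Q' : Finset ℤ) (hT : T.Nonempty) (hU : U.Nonempty) (hTQ : T ⊆ Q)
    (hUQ : U ⊆ Q') (h0 : (0 : ℤ) ∈ Q) (h0' : (0 : ℤ) ∈ Q') (F G H d e : ℤ → ℝ)
    (hF : ∀ t ∈ T, 0 < F t) (hG : ∀ s ∈ U, 0 < G s)
    (hFz : ∀ t, t ∉ T → F t = 0) (hGz : ∀ s, s ∉ U → G s = 0)
    (hd : ∀ t ∈ Q, 0 ≤ d t) (he : ∀ t ∈ Q', 0 ≤ e t)
    (hd0 : ∀ t ∈ Q, d t ≤ d 0) (he0 : ∀ t ∈ Q', e t ≤ e 0)
    (hH : ∀ r ∈ T + U, 0 ≤ H r)
    (h : ∀ t ∈ T, ∀ s ∈ U, F t * G s ≤ H (t + s)) :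
    (∑ t ∈ T, (if t = 0 then 1 else (6 / 5 : ℝ)) * F t * d t) ^ 2
      * (∑ t ∈ U, (if t = 0 then 1 else (6 / 5 : ℝ)) * G t * e t) ^ 2
      ≤ (∑ r ∈ T + U, H r) ^ 2 * ((∑ t ∈ Q, d t ^ 2) * ∑ t ∈ Q', e t ^ 2) := by
  obtain ⟨t₀, ht₀, hmax⟩ := exists_max_image T F hT
  obtain ⟨s₀, hs₀, hmax'⟩ := exists_max_image U G hU
  set m := F t₀ with hm
  set m' := G s₀ with hm'
  have mp : 0 < m := hF t₀ ht₀
  have mp' : 0 < m' := hG s₀ hs₀
  set f : ℤ → ℝ := fun t => F t / m with hf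
  set g : ℤ → ℝ := fun t => G t / m' with hg
  set H' : ℤ → ℝ := fun r => H r / (m * m') with hH'
  have ff0 : f t₀ = 1 := by rw [hf]; simp only; rw [← hm, div_self mp.ne']
  have gg0 : g s₀ = 1 := by rw [hg]; simp only; rw [← hm', div_self mp'.ne']
  have f0 : ∀ t ∈ T, 0 ≤ f t ∧ f t ≤ 1 := fun t ht =>
    ⟨div_nonneg (hF t ht).le mp.le, (div_le_one mp).mpr (hmax t ht)⟩
  have g0 : ∀ t ∈ U, 0 ≤ g t ∧ g t ≤ 1 := fun t ht =>
    ⟨div_nonneg (hG t ht).le mp'.le, (div_le_one mp').mpr (hmax' t ht)⟩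
  have fz : ∀ t, t ∉ T → f t = 0 := fun t ht => by rw [hf]; simp only; rw [hFz t ht, zero_div]
  have gz : ∀ t, t ∉ U → g t = 0 := fun t ht => by rw [hg]; simp only; rw [hGz t ht, zero_div]
  have f0' : ∀ t ∈ Q, 0 ≤ f t ∧ f t ≤ 1 := by
    intro t _
    by_cases h1 : t ∈ T
    · exact f0 t h1
    · rw [fz t h1]; constructor <;> norm_num
  have g0' : ∀ t ∈ Q', 0 ≤ g t ∧ g t ≤ 1 := by
    intro t _
    by_cases h1 : t ∈ U
    · exact g0 t h1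
    · rw [gz t h1]; constructor <;> norm_num
  have hH'0 : ∀ r ∈ T + U, 0 ≤ H' r := fun r hr => div_nonneg (hH r hr) (by positivity)
  have hconv : ∀ t ∈ T, ∀ s ∈ U, f t * g s ≤ H' (t + s) := by
    intro t ht s hs
    rw [hf, hg, hH']
    simp only
    rw [div_mul_div_comm]
    exact div_le_div_of_nonneg_right (h t ht s hs) (by positivity)
  have L1 := level (T.card + U.card) T U f g H' t₀ s₀ le_rfl
    ht₀ hs₀ ff0 gg0 f0 g0 hH'0 hconv
  have L2 := suml (F := f) (G := g) hs₀ gg0 hH'0 hconv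
  have L3 := sumr (F := f) (G := g) ht₀ ff0 hH'0 hconv
  have C1 := csV Q f d t₀ h0 (hTQ ht₀) ff0 f0' hd hd0
  have C2 := csV Q' g e s₀ h0' (hUQ hs₀) gg0 g0' he he0
  have sQ : ∀ φ : ℤ → ℝ, (∀ t, t ∉ T → φ t = 0) → ∑ t ∈ Q, φ t = ∑ t ∈ T, φ t := fun φ hφ =>
    (sum_subset hTQ (fun t _ ht => hφ t ht)).symm
  have sQ' : ∀ φ : ℤ → ℝ, (∀ t, t ∉ U → φ t = 0) → ∑ t ∈ Q', φ t = ∑ t ∈ U, φ t := fun φ hφ =>
    (sum_subset hUQ (fun t _ ht => hφ t ht)).symm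
  rw [sQ _ (fun t ht => by rw [fz t ht]; ring), sQ (fun t => f t ^ 2) (fun t ht => by
    rw [fz t ht]; ring), sQ f fz] at C1
  rw [sQ' _ (fun t ht => by rw [gz t ht]; ring), sQ' (fun t => g t ^ 2) (fun t ht => by
    rw [gz t ht]; ring), sQ' g gz] at C2
  set X := ∑ t ∈ T, f t ^ 2
  set Y := ∑ t ∈ T, f t
  set X' := ∑ t ∈ U, g t ^ 2
  set Y' := ∑ t ∈ U, g t
  set S := ∑ r ∈ T + U, H' r with hS
  set DD := ∑ t ∈ Q, d t ^ 2
  set EE := ∑ t ∈ Q', e t ^ 2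
  have hX1 : 1 ≤ X := by
    have := single_le_sum (f := fun t => f t ^ 2) (fun t ht => sq_nonneg _) ht₀
    simpa [ff0] using this
  have hY1 : 1 ≤ Y := by
    have := single_le_sum (f := f) (fun t ht => (f0 t ht).1) ht₀
    simpa [ff0] using this
  have hX1' : 1 ≤ X' := by
    have := single_le_sum (f := fun t => g t ^ 2) (fun t ht => sq_nonneg _) hs₀
    simpa [gg0] using this
  have hY1' : 1 ≤ Y' := by
    have := single_le_sum (f := g) (fun t ht => (g0 t ht).1) hs₀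
    simpa [gg0] using this
  have hRR : (X - 1 / 2 + 1 / 2 * Y) * (X' - 1 / 2 + 1 / 2 * Y') ≤ S ^ 2 := by
    have hs : (X - 1 / 2 + 1 / 2 * Y) + (X' - 1 / 2 + 1 / 2 * Y') ≤ 2 * S := by linarith
    have h1 : 0 ≤ X - 1 / 2 + 1 / 2 * Y := by linarith
    have h2 : 0 ≤ X' - 1 / 2 + 1 / 2 * Y' := by linarith
    nlinarith [sq_nonneg ((X - 1 / 2 + 1 / 2 * Y) - (X' - 1 / 2 + 1 / 2 * Y'))]
  have hSS : S = (∑ r ∈ T + U, H r) / (m * m') := by rw [hS, hH', sum_div]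
  have hD0 : 0 ≤ DD := sum_nonneg (fun t _ => sq_nonneg _)
  have hE0 : 0 ≤ EE := sum_nonneg (fun t _ => sq_nonneg _)
  have eA : ∑ t ∈ T, (if t = 0 then 1 else (6 / 5 : ℝ)) * F t * d t
      = m * ∑ t ∈ T, (if t = 0 then 1 else (6 / 5 : ℝ)) * f t * d t := by
    rw [mul_sum]
    apply sum_congr rfl
    intro t _
    rw [hf]
    simp only
    field_simp
  have eB : ∑ t ∈ U, (if t = 0 then 1 else (6 / 5 : ℝ)) * G t * e t
      = m' * ∑ t ∈ U, (if t = 0 then 1 else (6 / 5 : ℝ)) * g t * e t := by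
    rw [mul_sum]
    apply sum_congr rfl
    intro t _
    rw [hg]
    simp only
    field_simp
  rw [eA, eB]
  set A := ∑ t ∈ T, (if t = 0 then 1 else (6 / 5 : ℝ)) * f t * d t
  set B := ∑ t ∈ U, (if t = 0 then 1 else (6 / 5 : ℝ)) * g t * e t
  calc (m * A) ^ 2 * (m' * B) ^ 2 = (m * m') ^ 2 * (A ^ 2 * B ^ 2) := by ring
    _ ≤ (m * m') ^ 2 * (((X - 1 / 2 + 1 / 2 * Y) * DD) * ((X' - 1 / 2 + 1 / 2 * Y') * EE)) := by
        apply mul_le_mul_of_nonneg_left _ (by positivity)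
        exact mul_le_mul C1 C2 (sq_nonneg _) (le_trans (sq_nonneg _) C1)
    _ = (m * m') ^ 2 * (((X - 1 / 2 + 1 / 2 * Y) * (X' - 1 / 2 + 1 / 2 * Y')) * (DD * EE)) := by
        ring
    _ ≤ (m * m') ^ 2 * (S ^ 2 * (DD * EE)) := by
        apply mul_le_mul_of_nonneg_left _ (by positivity)
        exact mul_le_mul_of_nonneg_right hRR (mul_nonneg hD0 hE0)
    _ = (∑ r ∈ T + U, H r) ^ 2 * (DD * EE) := by
        rw [hSS]
        field_simp

end TH893.PF
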