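import Pool.Agent.TH893.PF.OneD2

/-!
# Induction on the dimension

`mainP`: `(∑_{x ∈ A} ∏ (2|x_i|+1)^(-1/5))^5 (∑_{x ∈ B} ...)^5 ≤ |A + B|^8`.

`mainV`: for `A ⊆ D`, `B ⊆ E` with `D`, `E` closed under replacing coordinates by `0`,
`(∑_{x ∈ A} (6/5)^{|supp x|})^2 (∑_{x ∈ B} ...)^2 ≤ |A + B|^2 |D| |E|`.
-/

open Finset
open scoped Pointwise

namespace TH893.PF

/-- The slice of `A` at first coordinate `t`. -/
def slc {n : ℕ} (A : Finset (Fin (n + 1) → ℤ)) (t : ℤ) : Finset (Fin n → ℤ) :=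
  (A.filter (fun x => x 0 = t)).image Fin.tail

lemma mem_slc {n : ℕ} {A : Finset (Fin (n + 1) → ℤ)} {t : ℤ} {y : Fin n → ℤ} :
    y ∈ slc A t ↔ (Fin.cons t y : Fin (n + 1) → ℤ) ∈ A := by
  unfold slc
  rw [mem_image]
  constructor
  · rintro ⟨x, hx, rfl⟩
    obtain ⟨h1, h2⟩ := mem_filter.mp hx
    rw [← h2]
    have : (Fin.cons (x 0) (Fin.tail x) : Fin (n + 1) → ℤ) = x := Fin.cons_self_tail x
    rw [this]
    exact h1
  · intro h
    refine ⟨Fin.cons t y, mem_filter.mpr ⟨h, Fin.cons_zero _ _⟩, ?_⟩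
    exact Fin.tail_cons _ _

lemma sum_slc {n : ℕ} (A : Finset (Fin (n + 1) → ℤ)) (f : (Fin (n + 1) → ℤ) → ℝ) (Q : Finset ℤ)
    (hQ : ∀ x ∈ A, x 0 ∈ Q) :
    ∑ x ∈ A, f x = ∑ t ∈ Q, ∑ y ∈ slc A t, f (Fin.cons t y) := by
  rw [← sum_fiberwise_of_maps_to hQ]
  apply sum_congr rfl
  intro t _
  unfold slc
  rw [sum_image]
  · apply sum_congr rfl
    intro x hx
    obtain ⟨_, h2⟩ := mem_filter.mp hx
    rw [← h2]
    have : (Fin.cons (x 0) (Fin.tail x) : Fin (n + 1) → ℤ) = x := Fin.cons_self_tail x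
    rw [this]
  · intro x hx x' hx' hxx
    obtain ⟨_, h2⟩ := mem_filter.mp hx
    obtain ⟨_, h2'⟩ := mem_filter.mp hx'
    have e1 : (Fin.cons (x 0) (Fin.tail x) : Fin (n + 1) → ℤ) = x := Fin.cons_self_tail x
    have e2 : (Fin.cons (x' 0) (Fin.tail x') : Fin (n + 1) → ℤ) = x' := Fin.cons_self_tail x'
    rw [← e1, ← e2, hxx, h2, h2']

lemma slc_add {n : ℕ} (A B : Finset (Fin (n + 1) → ℤ)) (t s : ℤ) :
    slc A t + slc B s ⊆ slc (A + B) (t + s) := by
  intro z hz
  obtain ⟨x, hx, y, hy, rfl⟩ := mem_add.mp hz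
  rw [mem_slc] at hx hy ⊢
  have : (Fin.cons (t + s) (x + y) : Fin (n + 1) → ℤ)
      = (Fin.cons t x : Fin (n + 1) → ℤ) + (Fin.cons s y : Fin (n + 1) → ℤ) := by
    funext i
    refine Fin.cases ?_ (fun j => ?_) i
    · simp
    · simp
  rw [this]
  exact add_mem_add hx hy

lemma card_slc {n : ℕ} (A : Finset (Fin (n + 1) → ℤ)) (Q : Finset ℤ)
    (hQ : ∀ x ∈ A, x 0 ∈ Q) : (A.card : ℝ) = ∑ t ∈ Q, ((slc A t).card : ℝ) := by
  have := sum_slc A (fun _ => (1 : ℝ)) Q hQ
  simpa using this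

lemma slc_nonempty {n : ℕ} {A : Finset (Fin (n + 1) → ℤ)} {t : ℤ}
    (ht : t ∈ A.image (fun x => x 0)) : (slc A t).Nonempty := by
  obtain ⟨x, hx, rfl⟩ := mem_image.mp ht
  refine ⟨Fin.tail x, ?_⟩
  rw [mem_slc]
  have : (Fin.cons (x 0) (Fin.tail x) : Fin (n + 1) → ℤ) = x := Fin.cons_self_tail x
  rw [this]
  exact hx

lemma add_zero_mem {n : ℕ} (A B : Finset (Fin (n + 1) → ℤ)) :
    ∀ x ∈ A + B, x 0 ∈ A.image (fun x => x 0) + B.image (fun x => x 0) := by
  intro x hx
  obtain ⟨a, ha, b, hb, rfl⟩ := mem_add.mp hx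
  exact add_mem_add (mem_image_of_mem _ ha) (mem_image_of_mem _ hb)

/-- The weighted sumset inequality in every dimension. -/
theorem mainP_aux (u : ℤ → ℝ) (hu0 : ∀ t, 0 < u t)
    (hu : ∀ E : Finset ℤ, ∑ t ∈ E, u t ≤ hh E.card) (n : ℕ) :
    ∀ (A B : Finset (Fin n → ℤ)), A.Nonempty → B.Nonempty →
      (∑ x ∈ A, ∏ i, u (x i)) ^ 5 * (∑ x ∈ B, ∏ i, u (x i)) ^ 5 ≤ ((A + B).card : ℝ) ^ 8 := by
  induction n with
  | zero =>
    intro A B hA hB
    have h1 : ∀ C : Finset (Fin 0 → ℤ), C.Nonempty → C.card = 1 := by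
      intro C hC
      have := hC.card_pos
      have := card_le_one_of_subsingleton C
      omega
    have hAB : (A + B).Nonempty := hA.add hB
    simp [h1 A hA, h1 B hB, h1 _ hAB]
  | succ n ih =>
    intro A B hA hB
    set T := A.image (fun x => x 0) with hT
    set U := B.image (fun x => x 0) with hU
    have hTn : T.Nonempty := hA.image _
    have hUn : U.Nonempty := hB.image _
    have posW : ∀ C : Finset (Fin n → ℤ), C.Nonempty → 0 < ∑ y ∈ C, ∏ i, u (y i) :=
      fun C hC => sum_pos (fun y _ => prod_pos (fun i _ => hu0 _)) hC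
    have key := oneD1 T U hTn hUn (fun t => ∑ y ∈ slc A t, ∏ i, u (y i))
      (fun t => ∑ y ∈ slc B t, ∏ i, u (y i)) u (fun r => ((slc (A + B) r).card : ℝ))
      (fun t ht => posW _ (slc_nonempty ht)) (fun t ht => posW _ (slc_nonempty ht))
      (fun t => (hu0 t).le) hu (fun r _ => Nat.cast_nonneg _)
      (by
        intro t ht s hs
        rw [mul_pow]
        refine (ih (slc A t) (slc B s) (slc_nonempty ht) (slc_nonempty hs)).trans ?_
        apply pow_le_pow_left₀ (Nat.cast_nonneg _)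
        exact_mod_cast card_le_card (slc_add A B t s))
    have eS : ∀ C : Finset (Fin (n + 1) → ℤ), ∑ x ∈ C, ∏ i, u (x i)
        = ∑ t ∈ C.image (fun x => x 0), (∑ y ∈ slc C t, ∏ i, u (y i)) * u t := by
      intro C
      rw [sum_slc C (fun x => ∏ i, u (x i)) (C.image (fun x => x 0))
        (fun x hx => mem_image_of_mem _ hx)]
      apply sum_congr rfl
      intro t _
      rw [sum_mul]
      apply sum_congr rfl
      intro y _
      rw [Fin.prod_univ_succ]
      simp only [Fin.cons_zero, Fin.cons_succ]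
      ring
    rw [eS A, eS B, card_slc (A + B) (T + U) (add_zero_mem A B)]
    exact key

/-- The weight `(2 |t| + 1) ^ (-1/5)`. -/
noncomputable def uw (t : ℤ) : ℝ := (r5 (2 * |(t : ℝ)| + 1))⁻¹

lemma uw_pos (t : ℤ) : 0 < uw t := inv_pos.mpr (r5_pos (by positivity))

/-- An enumeration of `ℤ` with `rho t ≤ 2 |t|`. -/
def rho (t : ℤ) : ℕ := if 0 < t then 2 * t.natAbs - 1 else 2 * t.natAbs

lemma rho_inj : Function.Injective rho := by
  intro a b h
  unfold rho at h
  split_ifs at h <;> omega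

lemma rho_le (t : ℤ) : (rho t : ℝ) ≤ 2 * |(t : ℝ)| := by
  have h1 : (rho t : ℤ) ≤ 2 * |t| := by
    rw [Int.abs_eq_natAbs]
    unfold rho
    split_ifs <;> omega
  have : ((rho t : ℤ) : ℝ) ≤ ((2 * |t| : ℤ) : ℝ) := by exact_mod_cast h1
  push_cast at this
  exact this

lemma sum_anti (S : Finset ℕ) : ∑ j ∈ S, (r5 ((j : ℝ) + 1))⁻¹ ≤ hh S.card := by
  induction S using Finset.induction_on_max with
  | empty => simp [hh]
  | insert a S hlt ih =>
    have hna : a ∉ S := fun h => lt_irrefl _ (hlt a h)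
    rw [sum_insert hna, card_insert_of_notMem hna]
    have hsub : S ⊆ range a := fun x hx => mem_range.mpr (hlt x hx)
    have hle : S.card ≤ a := by simpa using card_le_card hsub
    have hs : hh (S.card + 1) = hh S.card + (r5 ((S.card : ℝ) + 1))⁻¹ := by
      unfold hh
      rw [sum_range_succ]
    rw [hs]
    have hc : (S.card : ℝ) ≤ a := by exact_mod_cast hle
    have : (r5 ((a : ℝ) + 1))⁻¹ ≤ (r5 ((S.card : ℝ) + 1))⁻¹ := by
      apply inv_anti₀ (r5_pos (by positivity))
      apply r5_mono (by positivity)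
      linarith
    linarith

lemma uw_adm (E : Finset ℤ) : ∑ t ∈ E, uw t ≤ hh E.card := by
  calc ∑ t ∈ E, uw t ≤ ∑ t ∈ E, (r5 ((rho t : ℝ) + 1))⁻¹ := by
        apply sum_le_sum
        intro t _
        unfold uw
        apply inv_anti₀ (r5_pos (by positivity))
        apply r5_mono (by positivity)
        linarith [rho_le t]
    _ = ∑ j ∈ E.image rho, (r5 ((j : ℝ) + 1))⁻¹ := by
        rw [sum_image]
        intro x _ y _ hxy
        exact rho_inj hxy
    _ ≤ hh (E.image rho).card := sum_anti _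
    _ = hh E.card := by rw [card_image_of_injective _ rho_inj]

/-- The weighted sumset inequality with weights `∏ (2 |x_i| + 1) ^ (-1/5)`. -/
theorem mainP (n : ℕ) (A B : Finset (Fin n → ℤ)) (hA : A.Nonempty) (hB : B.Nonempty) :
    (∑ x ∈ A, ∏ i, uw (x i)) ^ 5 * (∑ x ∈ B, ∏ i, uw (x i)) ^ 5 ≤ ((A + B).card : ℝ) ^ 8 :=
  mainP_aux uw uw_pos uw_adm n A B hA hB

/-- The weight `(6/5)^{|supp x|}`. -/
noncomputable def nu {n : ℕ} (x : Fin n → ℤ) : ℝ := ∏ i, (if x i = 0 then 1 else (6 / 5 : ℝ))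

lemma nu_pos {n : ℕ} (x : Fin n → ℤ) : 0 < nu x :=
  prod_pos (fun i _ => by split_ifs <;> norm_num)

/-- The weighted inequality relative to sets closed under replacing coordinates by `0`. -/
theorem mainV (n : ℕ) :
    ∀ (A B D E : Finset (Fin n → ℤ)), A.Nonempty → B.Nonempty → A ⊆ D → B ⊆ E →
      (∀ x ∈ D, ∀ i, Function.update x i 0 ∈ D) → (∀ x ∈ E, ∀ i, Function.update x i 0 ∈ E) →
      (∑ x ∈ A, nu x) ^ 2 * (∑ x ∈ B, nu x) ^ 2
        ≤ ((A + B).card : ℝ) ^ 2 * ((D.card : ℝ) * E.card) := by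
  induction n with
  | zero =>
    intro A B D E hA hB hAD hBE _ _
    have h1 : ∀ C : Finset (Fin 0 → ℤ), C.Nonempty → C.card = 1 := by
      intro C hC
      have := hC.card_pos
      have := card_le_one_of_subsingleton C
      omega
    have hAB : (A + B).Nonempty := hA.add hB
    simp [nu, h1 A hA, h1 B hB, h1 _ hAB, h1 D (hA.mono hAD), h1 E (hB.mono hBE)]
  | succ n ih =>
    intro A B D E hA hB hAD hBE hD hE
    set T := A.image (fun x => x 0) with hT
    set U := B.image (fun x => x 0) with hU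
    set Q := D.image (fun x => x 0) with hQ
    set Q' := E.image (fun x => x 0) with hQ'
    have hTn : T.Nonempty := hA.image _
    have hUn : U.Nonempty := hB.image _
    have slc_zc : ∀ C : Finset (Fin (n + 1) → ℤ), (∀ x ∈ C, ∀ i, Function.update x i 0 ∈ C) →
        ∀ t, ∀ y ∈ slc C t, ∀ i, Function.update y i 0 ∈ slc C t := by
      intro C hC t y hy i
      rw [mem_slc] at hy ⊢
      rw [Fin.cons_update]
      exact hC _ hy _
    have slc_z : ∀ C : Finset (Fin (n + 1) → ℤ), (∀ x ∈ C, ∀ i, Function.update x i 0 ∈ C) →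
        ∀ t, slc C t ⊆ slc C 0 := by
      intro C hC t y hy
      rw [mem_slc] at hy ⊢
      have := hC _ hy 0
      rwa [Fin.update_cons_zero] at this
    have zero_mem : ∀ C : Finset (Fin (n + 1) → ℤ), C.Nonempty →
        (∀ x ∈ C, ∀ i, Function.update x i 0 ∈ C) → (0 : ℤ) ∈ C.image (fun x => x 0) := by
      intro C hCn hC
      obtain ⟨x, hx⟩ := hCn
      exact mem_image.mpr ⟨_, hC x hx 0, by simp⟩
    have slc_mono : ∀ C C' : Finset (Fin (n + 1) → ℤ), C ⊆ C' → ∀ t, slc C t ⊆ slc C' t := by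
      intro C C' hCC t y hy
      rw [mem_slc] at hy ⊢
      exact hCC hy
    set d : ℤ → ℝ := fun t => Real.sqrt ((slc D t).card : ℝ) with hd
    set e : ℤ → ℝ := fun t => Real.sqrt ((slc E t).card : ℝ) with he
    set F : ℤ → ℝ := fun t => if t ∈ T then (∑ y ∈ slc A t, nu y) / d t else 0 with hF
    set G : ℤ → ℝ := fun t => if t ∈ U then (∑ y ∈ slc B t, nu y) / e t else 0 with hG
    have dpos : ∀ t ∈ T, 0 < d t := by
      intro t ht
      apply Real.sqrt_pos.mpr
      exact_mod_cast ((slc_nonempty ht).mono (slc_mono A D hAD t)).card_pos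
    have epos : ∀ t ∈ U, 0 < e t := by
      intro t ht
      apply Real.sqrt_pos.mpr
      exact_mod_cast ((slc_nonempty ht).mono (slc_mono B E hBE t)).card_pos
    have posV : ∀ C : Finset (Fin n → ℤ), C.Nonempty → 0 < ∑ y ∈ C, nu y :=
      fun C hC => sum_pos (fun y _ => nu_pos y) hC
    have d2 : ∀ t, d t ^ 2 = ((slc D t).card : ℝ) := fun t => Real.sq_sqrt (Nat.cast_nonneg _)
    have e2 : ∀ t, e t ^ 2 = ((slc E t).card : ℝ) := fun t => Real.sq_sqrt (Nat.cast_nonneg _)
    have key := oneDV T U Q Q' hTn hUn (image_subset_image hAD) (image_subset_image hBE)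
      (zero_mem D (hA.mono hAD) hD) (zero_mem E (hB.mono hBE) hE) F G
      (fun r => ((slc (A + B) r).card : ℝ)) d e
      (fun t ht => by
        rw [hF]
        simp only
        rw [if_pos ht]
        exact div_pos (posV _ (slc_nonempty ht)) (dpos t ht))
      (fun t ht => by
        rw [hG]
        simp only
        rw [if_pos ht]
        exact div_pos (posV _ (slc_nonempty ht)) (epos t ht))
      (fun t ht => by rw [hF]; simp only; rw [if_neg ht])
      (fun t ht => by rw [hG]; simp only; rw [if_neg ht])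
      (fun t _ => Real.sqrt_nonneg _) (fun t _ => Real.sqrt_nonneg _)
      (fun t _ => Real.sqrt_le_sqrt (by exact_mod_cast card_le_card (slc_z D hD t)))
      (fun t _ => Real.sqrt_le_sqrt (by exact_mod_cast card_le_card (slc_z E hE t)))
      (fun r _ => Nat.cast_nonneg _)
      (by
        intro t ht s hs
        have hFt : F t = (∑ y ∈ slc A t, nu y) / d t := by
          rw [hF]; simp only; rw [if_pos ht]
        have hGs : G s = (∑ y ∈ slc B s, nu y) / e s := by
          rw [hG]; simp only; rw [if_pos hs]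
        have hI := ih (slc A t) (slc B s) (slc D t) (slc E s) (slc_nonempty ht) (slc_nonempty hs)
          (slc_mono A D hAD t) (slc_mono B E hBE s) (slc_zc D hD t) (slc_zc E hE s)
        have p1 := dpos t ht
        have p2 := epos s hs
        have hcard : ((slc A t + slc B s).card : ℝ) ≤ ((slc (A + B) (t + s)).card : ℝ) := by
          exact_mod_cast card_le_card (slc_add A B t s)
        refine le_trans ?_ hcard
        rw [hFt, hGs, div_mul_div_comm, div_le_iff₀ (by positivity)]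
        have n1 := (posV _ (slc_nonempty ht))
        have n2 := (posV _ (slc_nonempty hs))
        rw [← pow_le_pow_iff_left₀ (by positivity) (by positivity) (by norm_num : (2 : ℕ) ≠ 0)]
        calc ((∑ y ∈ slc A t, nu y) * ∑ y ∈ slc B s, nu y) ^ 2
            = (∑ y ∈ slc A t, nu y) ^ 2 * (∑ y ∈ slc B s, nu y) ^ 2 := by ring
          _ ≤ _ := hI
          _ = (((slc A t + slc B s).card : ℝ) * (d t * e s)) ^ 2 := by
              rw [mul_pow, mul_pow, d2, e2])
    have eS : ∀ (C : Finset (Fin (n + 1) → ℤ)), ∑ x ∈ C, nu x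
        = ∑ t ∈ C.image (fun x => x 0),
            (if t = 0 then 1 else (6 / 5 : ℝ)) * ∑ y ∈ slc C t, nu y := by
      intro C
      rw [sum_slc C nu (C.image (fun x => x 0)) (fun x hx => mem_image_of_mem _ hx)]
      apply sum_congr rfl
      intro t _
      rw [mul_sum]
      apply sum_congr rfl
      intro y _
      unfold nu
      rw [Fin.prod_univ_succ]
      simp only [Fin.cons_zero, Fin.cons_succ]
    have eA : ∑ t ∈ T, (if t = 0 then 1 else (6 / 5 : ℝ)) * F t * d t = ∑ x ∈ A, nu x := by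
      rw [eS A]
      apply sum_congr rfl
      intro t ht
      rw [hF]
      simp only
      rw [if_pos ht, mul_assoc, div_mul_cancel₀ _ (dpos t ht).ne']
    have eB : ∑ t ∈ U, (if t = 0 then 1 else (6 / 5 : ℝ)) * G t * e t = ∑ x ∈ B, nu x := by
      rw [eS B]
      apply sum_congr rfl
      intro t ht
      rw [hG]
      simp only
      rw [if_pos ht, mul_assoc, div_mul_cancel₀ _ (epos t ht).ne']
    rw [eA, eB] at key
    have eD : ∑ t ∈ Q, d t ^ 2 = (D.card : ℝ) := by
      rw [card_slc D Q (fun x hx => mem_image_of_mem _ hx)]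
      exact sum_congr rfl (fun t _ => d2 t)
    have eE : ∑ t ∈ Q', e t ^ 2 = (E.card : ℝ) := by
      rw [card_slc E Q' (fun x hx => mem_image_of_mem _ hx)]
      exact sum_congr rfl (fun t _ => e2 t)
    rw [eD, eE] at key
    rw [card_slc (A + B) (T + U) (add_zero_mem A B)]
    exact key

end TH893.PF
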